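import Mathlib
import Pool.Agent.Work.MP_8efaaa_nt.V6.Defs
import Pool.Agent.Work.MP_8efaaa_nt.V6.GPi

/-!
# Y6/Prd (S-M): comparison of two systems of representatives

PROOF. More generally, for every finite set `J` of classes and every odd ideal `x`: `PP ((∏ g ∈ J, r g) * x) = PP ((∏ g ∈ J, r' g) * x) + ∑ g ∈ J, (PP (r g) - PP (r' g))` (`Finset.induction_on`). Step: `kk_px` for `b = r g`, `c = r' g` gives `ε` with `PP (r g * y) = PP (r' g * y) + ε` for all odd `y`; with `y = 1`: `ε = PP (r g) - PP (r' g)`; with `y = (∏ r) * x`, then reorder: `r' g * ((∏ r) * x) = (∏ r) * (r' g * x)` and apply the induction hypothesis to `r' g * x`. At the end `J = univ`, `x = 1`.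
-/

set_option autoImplicit false

namespace Pool.Agent.Work.MP_8efaaa_nt.Y6

open NumberField Pool.Agent.Work.MP_8efaaa_nt.R Pool.Agent.Work.MP_8efaaa_nt.N5
  Pool.Agent.Work.MP_8efaaa_nt.K6 Pool.Agent.Work.MP_8efaaa_nt.W14 Pool.Agent.Work.MP_8efaaa_nt.V6
open scoped Classical nonZeroDivisors

variable {K F : Type*} [Field K] [NumberField K] [Field F] [NumberField F] [Algebra K F] {a : ℕ}
  {s : K} {S : 𝓞 K} {τ : 𝓞 K ≃+* 𝓞 K} {ζ : F} {w : ℕ → F} {z k v : Ideal (𝓞 K) → F}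
  {κ : F ≃ₐ[ℚ] F}

private theorem prd_odd {c d : Ideal (𝓞 K)} (hc : OddI c) (hd : OddI d) : OddI (c * d) := by
  unfold OddI at *
  rw [map_mul]
  exact hc.mul hd

private theorem prd_one : OddI (1 : Ideal (𝓞 K)) := by
  unfold OddI
  rw [map_one]
  exact odd_one

private theorem prd_aux (hb : B6 K a s) (hS : algebraMap (𝓞 K) K S = s) (hτ : τ S = -S)
    (ha : a % 16 = 6) (hU : UD6 K F a s S τ ζ w z k v κ) {r r' : CG S → M1 K}
    (h : ∀ g, clN S (r g) = g) (h' : ∀ g, clN S (r' g) = g) (J : Finset (CG S)) :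
    ∀ x, OddI x → PP z k v (((∏ g ∈ J, r g : M1 K) : Ideal (𝓞 K)) * x) =
      PP z k v (((∏ g ∈ J, r' g : M1 K) : Ideal (𝓞 K)) * x) +
      ∑ g ∈ J, (PP z k v (r g : Ideal (𝓞 K)) - PP z k v (r' g : Ideal (𝓞 K))) := by
  induction J using Finset.induction_on with
  | empty =>
    intro x _
    rw [Finset.prod_empty, Finset.prod_empty, Finset.sum_empty, add_zero]
  | insert g J hg ih =>
    intro x hx
    rw [Finset.prod_insert hg, Finset.prod_insert hg, Finset.sum_insert hg]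
    obtain ⟨ε, -, -, hε⟩ := kk_px hb hS hτ ha hU (b := r g) (c := r' g) (by rw [h, h'])
    have h1 := hε 1 prd_one
    rw [mul_one, mul_one] at h1
    have h2 : ε = PP z k v (r g : Ideal (𝓞 K)) - PP z k v (r' g : Ideal (𝓞 K)) := by
      rw [h1]
      abel
    have ho := prd_odd (M1.odd (∏ g ∈ J, r g : M1 K).2) hx
    have h3 := hε _ ho
    have h4 := ih ((r' g : Ideal (𝓞 K)) * x) (prd_odd (M1.odd (r' g).2) hx)
    have e1 : ((r g * ∏ g ∈ J, r g : M1 K) : Ideal (𝓞 K)) * x =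
        (r g : Ideal (𝓞 K)) * (((∏ g ∈ J, r g : M1 K) : Ideal (𝓞 K)) * x) := by
      rw [Submonoid.coe_mul, mul_assoc]
    have e2 : (r' g : Ideal (𝓞 K)) * (((∏ g ∈ J, r g : M1 K) : Ideal (𝓞 K)) * x) =
        ((∏ g ∈ J, r g : M1 K) : Ideal (𝓞 K)) * ((r' g : Ideal (𝓞 K)) * x) :=
      mul_left_comm _ _ _
    have e3 : ((r' g * ∏ g ∈ J, r' g : M1 K) : Ideal (𝓞 K)) * x =
        ((∏ g ∈ J, r' g : M1 K) : Ideal (𝓞 K)) * ((r' g : Ideal (𝓞 K)) * x) := by
      rw [Submonoid.coe_mul, mul_comm (r' g : Ideal (𝓞 K)), mul_assoc]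
    rw [e1, h3, e2, h4, e3, ← h2]
    abel

theorem sum_prod (hb : B6 K a s) (hS : algebraMap (𝓞 K) K S = s) (hτ : τ S = -S)
    (ha : a % 16 = 6) (hU : UD6 K F a s S τ ζ w z k v κ) [Fintype (CG S)] {r r' : CG S → M1 K}
    (h : ∀ g, clN S (r g) = g) (h' : ∀ g, clN S (r' g) = g) :
    ∑ g, PP z k v (r g : Ideal (𝓞 K)) - ∑ g, PP z k v (r' g : Ideal (𝓞 K)) =
      PP z k v ((∏ g, r g : M1 K) : Ideal (𝓞 K)) - PP z k v ((∏ g, r' g : M1 K) : Ideal (𝓞 K)) := by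
  have h1 := prd_aux hb hS hτ ha hU h h' Finset.univ 1 prd_one
  rw [mul_one, mul_one, Finset.sum_sub_distrib] at h1
  rw [h1]
  abel

end Pool.Agent.Work.MP_8efaaa_nt.Y6
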