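import Mathlib
import Pool.Agent.Work.MP_8efaaa_nt.V6.Defs
import Pool.Agent.Work.MP_8efaaa_nt.V6.GPi
import Pool.Agent.Work.MP_8efaaa_nt.V6.QFa
import Pool.Agent.Work.MP_8efaaa_nt.V6.STo
import Pool.Agent.Work.MP_8efaaa_nt.W5.E1
import Pool.Agent.Work.MP_8efaaa_nt.W14.PGa

/-!
# Y6/Tor (S-M): the sum over a system of representatives, exactly

PROOF. `exists_pi` gives `f` with `HPi`, `sum_tor` gives `(16 : ℤ) • ∑ g, f g = 0`. `f g = PB (r g) + dd (N (r g))` (hr), `dd n + dd n = 0` (`dd_add`), so `(16 : ℤ) • ∑ g, PB (r g) = 0`, `PB = qn (PP ..)`, so `qn ((16 : ℤ) • ∑ g, PP (r g)) = 0`; a point with `qn R = 0` is killed by `2` (`qn_eq_zero`, `two_ep`), so `(32 : ℤ) • ∑ PP (r g) = 0`. `T + T = ez`, so `(4 : ℤ) • (T + em) = 0` (`two_ep`). So the difference `R` of the two sides has `(2 ^ 5 : ℤ) • R = 0` and lies in `E1 V`: `W5.two_pow_tors`.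
-/

set_option autoImplicit false

namespace Pool.Agent.Work.MP_8efaaa_nt.Y6

open NumberField Pool.Agent.Work.MP_8efaaa_nt.R Pool.Agent.Work.MP_8efaaa_nt.N5
  Pool.Agent.Work.MP_8efaaa_nt.K6 Pool.Agent.Work.MP_8efaaa_nt.W14 Pool.Agent.Work.MP_8efaaa_nt.V6
open scoped Classical nonZeroDivisors

variable {K F : Type*} [Field K] [NumberField K] [Field F] [NumberField F] [Algebra K F] {a : ℕ}
  {s : K} {S : 𝓞 K} {τ : 𝓞 K ≃+* 𝓞 K} {ζ : F} {w : ℕ → F} {z k v : Ideal (𝓞 K) → F}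
  {κ : F ≃ₐ[ℚ] F}

theorem sum_eq [FiniteDimensional K F] [IsGalois K F] (hb : B6 K a s)
    (hS : algebraMap (𝓞 K) K S = s) (hτ : τ S = -S) (ha : a % 16 = 6)
    (hU : UD6 K F a s S τ ζ w z k v κ) (hnc : ¬ IsCongruent a) {T : (cQ F).Point}
    (hT : T + T = ez F) {Γ : Type} [LinearOrderedCommGroupWithZero Γ] {V : Valuation F Γ}
    (h2 : V 2 = 1) [Fintype (CG S)] {r : CG S → M1 K} (hr : ∀ g, clN S (r g) = g) {N : ℕ}
    (h : ∑ g, PP z k v (r g : Ideal (𝓞 K)) - N • (T + W14.em F) ∈ W5.E1 V) :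
    ∑ g, PP z k v (r g : Ideal (𝓞 K)) = N • (T + W14.em F) := by
  obtain ⟨f, hf⟩ := exists_pi hb hS hτ ha hU
  obtain ⟨-, t2, t3, -, -, -⟩ := two_ep (F := F)
  have h16 := sum_tor hb hS hτ ha hU hnc hf
  have hd : ∀ n, (16 : ℤ) • dd F n = 0 := by
    intro n
    have h1 : (16 : ℤ) • dd F n = (8 : ℤ) • (dd F n + dd F n) := by
      rw [← two_zsmul, smul_smul]
      norm_num
    rw [h1, dd_add, smul_zero]
  have h3 : (16 : ℤ) • qn (∑ g, PP z k v (r g : Ideal (𝓞 K))) = 0 := by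
    rw [map_sum, Finset.smul_sum]
    rw [Finset.smul_sum] at h16
    rw [← h16]
    refine Finset.sum_congr rfl fun g _ => ?_
    have h4 := hf (r g)
    rw [hr] at h4
    rw [← h4, smul_add, hd, add_zero]
    rfl
  rw [← map_zsmul] at h3
  have h32 : (32 : ℤ) • ∑ g, PP z k v (r g : Ideal (𝓞 K)) = 0 := by
    have h5 : (32 : ℤ) • ∑ g, PP z k v (r g : Ideal (𝓞 K)) =
        (16 : ℤ) • ∑ g, PP z k v (r g : Ideal (𝓞 K)) +
          (16 : ℤ) • ∑ g, PP z k v (r g : Ideal (𝓞 K)) := by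
      rw [← add_smul]
      norm_num
    rw [h5]
    rcases qn_eq_zero.1 h3 with h6 | h6
    · rw [h6, add_zero]
    · rw [h6, t2]
  have hTe : (4 : ℤ) • (T + W14.em F) = 0 := by
    have h6 : (4 : ℤ) • (T + W14.em F) = ((T + T) + (T + T)) + ((W14.em F + W14.em F) +
        (W14.em F + W14.em F)) := by abel
    rw [h6, hT, t2, t3, add_zero, add_zero]
  have hNe : (32 : ℤ) • (N • (T + W14.em F)) = 0 := by
    have h6 : (32 : ℤ) • (N • (T + W14.em F)) = (8 : ℤ) • (N • ((4 : ℤ) • (T + W14.em F))) := by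
      rw [← natCast_zsmul, ← natCast_zsmul, smul_smul, smul_smul, smul_smul]
      congr 1
      ring
    rw [h6, hTe, smul_zero, smul_zero]
  have h7 : ((2 : ℤ) ^ 5) • (∑ g, PP z k v (r g : Ideal (𝓞 K)) - N • (T + W14.em F)) = 0 := by
    have h8 : ((2 : ℤ) ^ 5) = 32 := by norm_num
    rw [h8, smul_sub, h32, hNe, sub_zero]
  have _ := h2
  exact sub_eq_zero.1 (W5.two_pow_tors h 5 h7)

end Pool.Agent.Work.MP_8efaaa_nt.Y6
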