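import Mathlib

/-!
# Y6/Two (S-M): a finite abelian group of even order with one element of order two (pure group theory)

PROOF. Suppose `y ^ (card / 2) = 1` for all `y`. `card Q = 2 ^ k * m`, `m` odd, `k ≥ 1` (`Nat.exists_eq_two_pow_mul_odd`). (1) `#{x | x ^ (2 ^ j) = 1} ≤ 2 ^ j` by induction: the squaring map from
`{x | x ^ (2 ^ (j+1)) = 1}` to `{x | x ^ (2 ^ j) = 1}` has fibres with at most two elements (`x' * x⁻¹` has square `1`; `powMonoidHom 2`, `Nat.card ker ≤ 2`). (2) the kernel of `y ↦ y ^ m` (`powMonoidHom m`) has no element of order two (`m` odd), so its order is odd (Cauchy, `exists_prime_orderOf_dvd_card'`) and divides `2 ^ k * m`, so it divides `m`.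
(3) the image lies in `{x | x ^ (2 ^ (k-1)) = 1}`, so `card Q ≤ m * 2 ^ (k - 1) < card Q`.
-/

set_option autoImplicit false

namespace Pool.Agent.Work.MP_8efaaa_nt.Y6

open scoped Classical in
theorem two_cyc {Q : Type*} [CommGroup Q] [Finite Q] (h2 : 2 ∣ Nat.card Q) {μ : Q}
    (hμ : ∀ x : Q, x * x = 1 → x = 1 ∨ x = μ) : ∃ y : Q, y ^ (Nat.card Q / 2) ≠ 1 := by
  have := Fintype.ofFinite Q
  by_contra hcon
  push Not at hcon
  have hpos : 0 < Nat.card Q := Nat.card_pos
  obtain ⟨k, m, hm, hk⟩ := Nat.exists_eq_two_pow_mul_odd (n := Nat.card Q) hpos.ne'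
  have hk1 : 1 ≤ k := by
    rcases Nat.eq_zero_or_pos k with rfl | h
    · exfalso
      rw [hk, pow_zero, one_mul] at h2
      obtain ⟨t, ht⟩ := hm
      omega
    · exact h
  -- fibres of the squaring
  have hfib : ∀ j : ℕ, (Finset.univ.filter (fun x : Q => x ^ (2 ^ j) = 1)).card ≤ 2 ^ j := by
    intro j
    induction j with
    | zero =>
      have : (Finset.univ.filter (fun x : Q => x ^ (2 ^ 0) = 1)) = {1} := by
        ext x
        simp
      rw [this]
      simp
    | succ j ih =>
      have h1 : (Finset.univ.filter (fun x : Q => x ^ (2 ^ (j + 1)) = 1)).card ≤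
          2 * ((Finset.univ.filter (fun x : Q => x ^ (2 ^ (j + 1)) = 1)).image
            (fun x => x ^ 2)).card := by
        apply Finset.card_le_mul_card_image
        intro b hb
        obtain ⟨x, hx, hxb⟩ := Finset.mem_image.1 hb
        have hsub : (Finset.filter (fun y : Q => y ^ 2 = b)
            (Finset.univ.filter (fun x : Q => x ^ (2 ^ (j + 1)) = 1))) ⊆ {x, x * μ} := by
          intro y hy
          have hyb : y ^ 2 = b := (Finset.mem_filter.1 hy).2
          have h3 : (x⁻¹ * y) * (x⁻¹ * y) = 1 := by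
            have : (x⁻¹ * y) * (x⁻¹ * y) = (x ^ 2)⁻¹ * y ^ 2 := by
              rw [← pow_two, mul_pow, inv_pow]
            rw [this, hyb, ← hxb]
            simp
          rcases hμ _ h3 with h4 | h4
          · have : y = x := by
              calc y = x * (x⁻¹ * y) := by group
                _ = x := by rw [h4, mul_one]
            simp [this]
          · have : y = x * μ := by
              calc y = x * (x⁻¹ * y) := by group
                _ = x * μ := by rw [h4]
            simp [this]
        exact (Finset.card_le_card hsub).trans (Finset.card_le_two)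
      have h2' : ((Finset.univ.filter (fun x : Q => x ^ (2 ^ (j + 1)) = 1)).image
            (fun x => x ^ 2)) ⊆ Finset.univ.filter (fun x : Q => x ^ (2 ^ j) = 1) := by
        intro b hb
        obtain ⟨x, hx, hxb⟩ := Finset.mem_image.1 hb
        have hx1 : x ^ (2 ^ (j + 1)) = 1 := (Finset.mem_filter.1 hx).2
        refine Finset.mem_filter.2 ⟨Finset.mem_univ _, ?_⟩
        rw [← hxb]
        show (x ^ 2) ^ (2 ^ j) = 1
        rw [← pow_mul, ← pow_succ']
        exact hx1
      calc (Finset.univ.filter (fun x : Q => x ^ (2 ^ (j + 1)) = 1)).card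
          ≤ 2 * ((Finset.univ.filter (fun x : Q => x ^ (2 ^ (j + 1)) = 1)).image
            (fun x => x ^ 2)).card := h1
        _ ≤ 2 * 2 ^ j := Nat.mul_le_mul_left 2 ((Finset.card_le_card h2').trans ih)
        _ = 2 ^ (j + 1) := by rw [pow_succ']
  -- the kernel of y ↦ y ^ m
  have hker : Nat.card (powMonoidHom m : Q →* Q).ker ≤ m := by
    have hdvd : Nat.card (powMonoidHom m : Q →* Q).ker ∣ 2 ^ k * m := by
      rw [← hk]
      exact Subgroup.card_subgroup_dvd_card _
    have hodd : Nat.Coprime (Nat.card (powMonoidHom m : Q →* Q).ker) (2 ^ k) := by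
      apply Nat.Coprime.pow_right
      rw [Nat.coprime_comm, Nat.Prime.coprime_iff_not_dvd Nat.prime_two]
      intro hd
      have : Fact (Nat.Prime 2) := ⟨Nat.prime_two⟩
      obtain ⟨x, hx⟩ := exists_prime_orderOf_dvd_card' (G := (powMonoidHom m : Q →* Q).ker) 2 hd
      have hxm : (x : Q) ^ m = 1 := x.2
      have hx2 : x ^ 2 = 1 := by rw [← hx]; exact pow_orderOf_eq_one x
      have hx2' : (x : Q) ^ 2 = 1 := by
        have := congrArg (fun y : (powMonoidHom m : Q →* Q).ker => (y : Q)) hx2
        simpa using this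
      obtain ⟨t, ht⟩ := hm
      have hgen : ∀ y : Q, y ^ m = 1 → y ^ 2 = 1 → y = 1 := by
        intro y h3 h4
        rw [ht, pow_succ, pow_mul, h4, one_pow, one_mul] at h3
        exact h3
      have hx1 : (x : Q) = 1 := hgen _ hxm hx2'
      have hx1' : x = 1 := Subtype.ext hx1
      rw [hx1', orderOf_one] at hx
      omega
    exact Nat.le_of_dvd hm.pos (hodd.dvd_of_dvd_mul_left hdvd)
  have h1 : Nat.card Q = Nat.card (powMonoidHom m : Q →* Q).ker *
      Nat.card (powMonoidHom m : Q →* Q).range := by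
    rw [← Subgroup.index_ker, Subgroup.card_mul_index]
  have h3 : Nat.card (powMonoidHom m : Q →* Q).range ≤ 2 ^ (k - 1) := by
    refine le_trans ?_ (hfib (k - 1))
    have hsub : ((powMonoidHom m : Q →* Q).range : Set Q) ⊆
        ((Finset.univ.filter (fun x : Q => x ^ (2 ^ (k - 1)) = 1) : Finset Q) : Set Q) := by
      rintro _ ⟨y, rfl⟩
      simp only [powMonoidHom_apply, Finset.coe_filter, Finset.mem_univ, true_and, Set.mem_ofPred_eq]
      have h4 := hcon y
      have h5 : Nat.card Q / 2 = m * 2 ^ (k - 1) := by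
        rw [hk]
        obtain ⟨k', rfl⟩ : ∃ k', k = k' + 1 := ⟨k - 1, by omega⟩
        rw [pow_succ, Nat.add_sub_cancel, mul_right_comm, Nat.mul_div_cancel _ (by norm_num),
          mul_comm]
      rw [h5, pow_mul] at h4
      exact h4
    have h6 := Nat.card_mono (Finset.finite_toSet _) hsub
    have h7 : Nat.card ((powMonoidHom m : Q →* Q).range : Set Q) =
      Nat.card (powMonoidHom m : Q →* Q).range := rfl
    rw [h7] at h6
    refine h6.trans (le_of_eq ?_)
    rw [Nat.card_eq_card_toFinset, Finset.toFinset_coe]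
  have h8 : Nat.card Q ≤ m * 2 ^ (k - 1) := by
    rw [h1]
    exact Nat.mul_le_mul hker h3
  have h9 : 2 ^ k = 2 * 2 ^ (k - 1) := by
    obtain ⟨k', rfl⟩ : ∃ k', k = k' + 1 := ⟨k - 1, by omega⟩
    rw [Nat.add_sub_cancel, pow_succ']
  rw [hk, h9] at h8
  have h10 : 0 < m * 2 ^ (k - 1) := Nat.mul_pos hm.pos (by positivity)
  nlinarith

end Pool.Agent.Work.MP_8efaaa_nt.Y6
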