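import Mathlib
import Pool.Agent.Work.MP_8efaaa_nt.Y6.Two

/-!
# Y6/Four (M): a finite abelian group with three elements of order two (pure group theory)

PROOF. Let `Q = (powMonoidHom 2).range` be the subgroup of the squares. The kernel of the squaring is `{1, ρ, l1, l2}` (`4` different elements, by h, h1..h6), so `card X = 4 * card Q` (`MonoidHom` `index_ker`, `Subgroup.card_mul_index`); `N = card X / 4 = card Q`. (a) for all `x`: `(x ^ N) * (x ^ N) = (x ^ 2) ^ N = 1` (`pow_card` in `Q`), so `x ^ N ∈ {1, ρ, l1, l2}`.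
(b) `N` odd, `N = 2 j + 1`: `γ ^ N = γ * (γ ^ j) ^ 2`; if `γ ^ N = 1` then `γ = (γ ^ j)⁻¹ ^ 2`, against hγ; if `γ ^ N = ρ` then `ρ * γ = ρ * ρ * ((γ ^ j)⁻¹) ^ 2 = ((γ ^ j)⁻¹) ^ 2`, against hγρ.
(c) `N` even: the elements of `Q` of square `1` are among `1, l1, l2` (hρ), and not both `l1` and `l2` (their product is `ρ`: `l1 * l2 ∉ {1, l1, l2}`), so two_cyc for `Q` gives `y = x ^ 2` with `y ^ (N / 2) ≠ 1`, that is `x ^ N ≠ 1`. For every `z`, `z ^ N` is a square (`N` even), so `z ^ N ≠ ρ`, and `ρ ^ N = 1`, `(z ^ 2) ^ N = 1`. The cosets of `Q` of `1, ρ, γ, ρ γ` are different (hρ, hγ, hγρ, `ρ * ρ = 1`), `Q` has index `4`, so every element is `e * q ^ 2` with `e ∈ {1, ρ, γ, ρ γ}` (count, or: `Subgroup.index` of `Q` and an injective map from `Bool × Bool × Q`). If `γ ^ N = 1` then `x ^ N = 1` for all `x`, contradiction. So `γ ^ N ∈ {l1, l2}`.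
-/

set_option autoImplicit false

namespace Pool.Agent.Work.MP_8efaaa_nt.Y6

theorem four_pow {X : Type*} [CommGroup X] [Finite X] {ρ l1 l2 γ : X}
    (h : ∀ x : X, x * x = 1 ↔ x = 1 ∨ x = ρ ∨ x = l1 ∨ x = l2) (h1 : ρ ≠ 1) (h2 : l1 ≠ 1)
    (h3 : l2 ≠ 1) (h4 : ρ ≠ l1) (h5 : ρ ≠ l2) (h6 : l1 ≠ l2) (hρ : ∀ x, x * x ≠ ρ)
    (hγ : ∀ x, x * x ≠ γ) (hγρ : ∀ x, x * x ≠ ρ * γ) :
    4 ∣ Nat.card X ∧ (γ ^ (Nat.card X / 4) = l1 ∨ γ ^ (Nat.card X / 4) = l2) := by
  have hρρ : ρ * ρ = 1 := (h ρ).2 (Or.inr (Or.inl rfl))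
  have h11 : l1 * l1 = 1 := (h l1).2 (Or.inr (Or.inr (Or.inl rfl)))
  have h22 : l2 * l2 = 1 := (h l2).2 (Or.inr (Or.inr (Or.inr rfl)))
  have hcard : Nat.card X = 4 * Nat.card (powMonoidHom 2 : X →* X).range := by
    have hk : Nat.card (powMonoidHom 2 : X →* X).ker = 4 := by
      have hset : ((powMonoidHom 2 : X →* X).ker : Set X) = {1, ρ, l1, l2} := by
        ext x
        simp only [SetLike.mem_coe, MonoidHom.mem_ker, powMonoidHom_apply, Set.mem_insert_iff,
          Set.mem_singleton_iff, pow_two]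
        exact h x
      have h0 : Nat.card (powMonoidHom 2 : X →* X).ker = Nat.card ({1, ρ, l1, l2} : Set X) := by
        rw [← hset]
        rfl
      rw [h0, Nat.card_coe_set_eq]
      rw [Set.ncard_insert_of_notMem, Set.ncard_insert_of_notMem, Set.ncard_pair h6]
      · simp only [Set.mem_insert_iff, Set.mem_singleton_iff, not_or]
        exact ⟨h4, h5⟩
      · simp only [Set.mem_insert_iff, Set.mem_singleton_iff, not_or]
        exact ⟨h1.symm, h2.symm, h3.symm⟩
    rw [← Subgroup.card_mul_index (powMonoidHom 2 : X →* X).ker, hk, Subgroup.index_ker]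
  have hind : (powMonoidHom 2 : X →* X).range.index = 4 := by
    have h7 := Subgroup.card_mul_index (powMonoidHom 2 : X →* X).range
    rw [hcard] at h7
    have h8 : 0 < Nat.card (powMonoidHom 2 : X →* X).range := Nat.card_pos
    exact Nat.eq_of_mul_eq_mul_left h8 (by rw [h7, mul_comm])
  refine ⟨⟨_, hcard⟩, ?_⟩
  obtain ⟨N, hN⟩ : ∃ N, N = Nat.card (powMonoidHom 2 : X →* X).range := ⟨_, rfl⟩
  have hN4 : Nat.card X / 4 = N := by
    rw [hcard, hN, Nat.mul_div_cancel_left _ (by norm_num)]
  rw [hN4]
  have hsqN : ∀ x : X, (x ^ 2) ^ N = 1 := by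
    intro x
    have h9 := pow_card_eq_one' (x := (⟨x ^ 2, ⟨x, rfl⟩⟩ : (powMonoidHom 2 : X →* X).range))
    have h10 := congrArg (fun y : (powMonoidHom 2 : X →* X).range => (y : X)) h9
    rw [hN]
    simpa using h10
  have hmem : ∀ x : X, x ^ N * x ^ N = 1 := by
    intro x
    rw [← pow_two, ← pow_mul, mul_comm, pow_mul]
    exact hsqN x
  have hcontra : γ ^ N ≠ 1 ∧ γ ^ N ≠ ρ := by
    rcases Nat.even_or_odd' N with ⟨j, hj | hj⟩
    · -- N even
      have hne : γ ^ N ≠ ρ := by
        intro h9
        apply hρ (γ ^ j)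
        rw [← h9, hj, two_mul, pow_add]
      refine ⟨?_, hne⟩
      intro hγN
      have h12 : l1 * l2 = ρ := by
        have h13 : (l1 * l2) * (l1 * l2) = 1 := by
          rw [mul_mul_mul_comm, h11, h22, mul_one]
        rcases (h _).1 h13 with h14 | h14 | h14 | h14
        · exfalso
          apply h6
          calc l1 = l1 * (l2 * l2) := by rw [h22, mul_one]
            _ = (l1 * l2) * l2 := by rw [mul_assoc]
            _ = l2 := by rw [h14, one_mul]
        · exact h14
        · exact absurd (mul_eq_left.1 h14) h3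
        · exact absurd (mul_eq_right.1 h14) h2
      obtain ⟨μ, hμ⟩ : ∃ μ : (powMonoidHom 2 : X →* X).range,
          ∀ x : (powMonoidHom 2 : X →* X).range, x * x = 1 → x = 1 ∨ x = μ := by
        have key : ∀ x : (powMonoidHom 2 : X →* X).range, x * x = 1 →
            (x : X) = 1 ∨ (x : X) = l1 ∨ (x : X) = l2 := by
          intro x hx
          have hx' : (x : X) * (x : X) = 1 := by
            have := congrArg (fun y : (powMonoidHom 2 : X →* X).range => (y : X)) hx
            simpa using this
          rcases (h _).1 hx' with h14 | h14 | h14 | h14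
          · exact Or.inl h14
          · exfalso
            obtain ⟨y, hy⟩ := x.2
            apply hρ y
            rw [← h14, ← hy, powMonoidHom_apply, pow_two]
          · exact Or.inr (Or.inl h14)
          · exact Or.inr (Or.inr h14)
        by_cases hl1 : l1 ∈ (powMonoidHom 2 : X →* X).range
        · refine ⟨⟨l1, hl1⟩, fun x hx => ?_⟩
          rcases key x hx with h14 | h14 | h14
          · exact Or.inl (Subtype.ext h14)
          · exact Or.inr (Subtype.ext h14)
          · exfalso
            obtain ⟨y, hy⟩ := hl1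
            obtain ⟨z, hz⟩ := x.2
            apply hρ (y * z)
            rw [powMonoidHom_apply] at hy hz
            rw [← h12, ← hy, ← h14, ← hz, pow_two, pow_two, mul_mul_mul_comm]
        · by_cases hl2 : l2 ∈ (powMonoidHom 2 : X →* X).range
          · refine ⟨⟨l2, hl2⟩, fun x hx => ?_⟩
            rcases key x hx with h14 | h14 | h14
            · exact Or.inl (Subtype.ext h14)
            · exact absurd (h14 ▸ x.2) hl1
            · exact Or.inr (Subtype.ext h14)
          · refine ⟨1, fun x hx => ?_⟩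
            rcases key x hx with h14 | h14 | h14
            · exact Or.inl (Subtype.ext h14)
            · exact absurd (h14 ▸ x.2) hl1
            · exact absurd (h14 ▸ x.2) hl2
      obtain ⟨y, hy⟩ := two_cyc (Q := (powMonoidHom 2 : X →* X).range)
        (by rw [← hN, hj]; exact dvd_mul_right 2 j) hμ
      obtain ⟨x, hx⟩ := y.2
      have hxN : x ^ N ≠ 1 := by
        intro h9
        apply hy
        apply Subtype.ext
        rw [← hN, hj, Nat.mul_div_cancel_left _ (by norm_num : 0 < 2)]
        rw [powMonoidHom_apply] at hx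
        show (y : X) ^ j = 1
        rw [← hx, ← pow_mul, ← hj]
        exact h9
      apply hxN
      -- the kernel of the N-th power is everything
      have hle : (powMonoidHom 2 : X →* X).range ≤ (powMonoidHom N : X →* X).ker := by
        rintro _ ⟨z, rfl⟩
        exact hsqN z
      have hρK : ρ ∈ (powMonoidHom N : X →* X).ker := by
        show ρ ^ N = 1
        rw [hj, pow_mul, pow_two, hρρ, one_pow]
      have hγK : γ ∈ (powMonoidHom N : X →* X).ker := hγN
      have hnρ : ρ ∉ (powMonoidHom 2 : X →* X).range := by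
        rintro ⟨z, hz⟩
        apply hρ z
        rw [← hz, powMonoidHom_apply, pow_two]
      have hnγ : γ ∉ (powMonoidHom 2 : X →* X).range := by
        rintro ⟨z, hz⟩
        apply hγ z
        rw [← hz, powMonoidHom_apply, pow_two]
      have hnργ : ρ * γ ∉ (powMonoidHom 2 : X →* X).range := by
        rintro ⟨z, hz⟩
        apply hγρ z
        rw [← hz, powMonoidHom_apply, pow_two]
      have hmul := Subgroup.relIndex_mul_index hle
      rw [hind] at hmul
      have hd4 : (powMonoidHom 2 : X →* X).range.relIndex (powMonoidHom N : X →* X).ker ∣ 4 :=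
        ⟨_, hmul.symm⟩
      have hcase : ∀ d : ℕ, d ∣ 4 → d = 1 ∨ d = 2 ∨ d = 4 := by
        intro d hd
        have := Nat.le_of_dvd (by norm_num) hd
        interval_cases d <;> revert hd <;> decide
      rcases hcase _ hd4 with h9 | h9 | h9
      · exact absurd ((Subgroup.relIndex_eq_one.1 h9) hρK) hnρ
      · exfalso
        have h10 := Subgroup.mul_mem_iff_of_index_two
          (H := (powMonoidHom 2 : X →* X).range.subgroupOf (powMonoidHom N : X →* X).ker) h9
          (a := ⟨ρ, hρK⟩) (b := ⟨γ, hγK⟩)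
        rw [Subgroup.mem_subgroupOf, Subgroup.mem_subgroupOf, Subgroup.mem_subgroupOf] at h10
        exact hnργ (h10.2 ⟨fun h => absurd h hnρ, fun h => absurd h hnγ⟩)
      · rw [h9] at hmul
        have h10 : (powMonoidHom N : X →* X).ker.index = 1 := by omega
        have h11 := Subgroup.index_eq_one.1 h10
        have h12 : x ∈ (powMonoidHom N : X →* X).ker := by rw [h11]; trivial
        exact h12
    · -- N odd
      constructor
      · intro h9
        apply hγ (γ ^ j)⁻¹
        rw [hj, pow_succ, two_mul, pow_add] at h9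
        have : γ = ((γ ^ j) * (γ ^ j))⁻¹ := by
          rw [eq_inv_iff_mul_eq_one, mul_comm]
          exact h9
        rw [← mul_inv]
        exact this.symm
      · intro h9
        apply hγρ (γ ^ j)⁻¹
        rw [hj, pow_succ, two_mul, pow_add] at h9
        have : ρ * γ = ((γ ^ j) * (γ ^ j))⁻¹ := by
          rw [eq_inv_iff_mul_eq_one, mul_assoc, mul_comm γ, h9, hρρ]
        rw [← mul_inv]
        exact this.symm
  rcases (h _).1 (hmem γ) with h9 | h9 | h9 | h9
  · exact absurd h9 hcontra.1
  · exact absurd h9 hcontra.2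
  · exact Or.inl h9
  · exact Or.inr h9

end Pool.Agent.Work.MP_8efaaa_nt.Y6
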