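import Mathlib
import Pool.Agent.Work.MP_8efaaa_nt.V6.Defs
import Pool.Agent.Work.MP_8efaaa_nt.V6.GNu
import Pool.Agent.Work.MP_8efaaa_nt.V6.GTw
import Pool.Agent.Work.MP_8efaaa_nt.W14.CEq
import Pool.Agent.Work.MP_8efaaa_nt.W14.CHi
import Pool.Agent.Work.MP_8efaaa_nt.W14.CNp
import Pool.Agent.Work.MP_8efaaa_nt.K6.ARg
import Pool.Agent.Work.MP_8efaaa_nt.K6.ARm

/-!
# Y6/GTw (M): classes of order two in `CG S`, `a = 2 r p q`, `r = 3`, `p = q = 7 (mod 8)`

PROOF. Copy `exists_grp6` (V6/GTw.lean) with its private lemmas; changes: the classes of `r6 S d`, `d ∣ r p q`, modulo `cls (r6 S 2)`: `1`, `R = mk (cls (r6 S r))`, `P`, `Q` with `R * P * Q = 1`, so `P = R * Q` etc.; `C * C = t` is excluded by `two_nsq` for the prime `r` (`r % 8 = 3`). Norms: `(1 + a) p = 7 * 7 = 1 (mod 8)` (`norm_g`, `norm_r6`), the class of `l1` is `mk (cls (r6 S p)) = P`, that of `l2` is `Q` (`cls_span`).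
-/

set_option autoImplicit false

namespace Pool.Agent.Work.MP_8efaaa_nt.Y6

open NumberField Pool.Agent.Work.MP_8efaaa_nt.R Pool.Agent.Work.MP_8efaaa_nt.N5
  Pool.Agent.Work.MP_8efaaa_nt.K6 Pool.Agent.Work.MP_8efaaa_nt.W14 Pool.Agent.Work.MP_8efaaa_nt.V6
open scoped Classical nonZeroDivisors

variable {K : Type*} [Field K] [NumberField K] {a : ℕ} {s : K} {S : 𝓞 K} {τ : 𝓞 K ≃+* 𝓞 K}

private theorem gtw_S (hb : B6 K a s) (hS : algebraMap (𝓞 K) K S = s) : S ≠ 0 := by
  rintro rfl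
  rw [map_zero] at hS
  have h := hb.sq
  rw [← hS] at h
  have h1 : (a : K) = 0 := by linear_combination h
  exact hb.sf.ne_zero (by exact_mod_cast h1)

private theorem gtw_sq (hb : B6 K a s) (hS : algebraMap (𝓞 K) K S = s) {d : ℕ} (hd : d ∣ a) :
    cls (r6 S d) * cls (r6 S d) = 1 := by
  have h := r6_ne hb hS hd
  rw [← cls_mul h h, r6_sq hb hS hd]
  apply cls_span
  have h1 : d ≠ 0 := by
    rintro rfl
    exact hb.sf.ne_zero (Nat.eq_zero_of_zero_dvd hd)
  exact_mod_cast h1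

private theorem gtw_mul (hb : B6 K a s) (hS : algebraMap (𝓞 K) K S = s) {d e : ℕ}
    (hd : d * e ∣ a) : cls (r6 S (d * e)) = cls (r6 S d) * cls (r6 S e) := by
  rw [r6_mul hb hS hd, cls_mul (r6_ne hb hS (dvd_of_mul_right_dvd hd))
    (r6_ne hb hS (dvd_of_mul_left_dvd hd))]

private theorem gtw_all (hb : B6 K a s) (hS : algebraMap (𝓞 K) K S = s) :
    cls (r6 S a) = 1 := by
  rw [r6_all hb hS]
  exact cls_span (gtw_S hb hS)

private theorem gtw_one (hb : B6 K a s) (hS : algebraMap (𝓞 K) K S = s) :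
    cls (r6 S 1) = 1 := by
  have h := gtw_sq hb hS (one_dvd a)
  have h1 := gtw_mul hb hS (d := 1) (e := 1) (by rw [mul_one]; exact one_dvd a)
  rw [mul_one, h] at h1
  exact h1

private theorem gtw_zp (hb : B6 K a s) (hS : algebraMap (𝓞 K) K S = s)
    (g : ClassGroup (𝓞 K)) : (QuotientGroup.mk g : CG S) = 1 ↔
      g = 1 ∨ g = cls (r6 S 2) := by
  obtain ⟨ht, -⟩ := cls_two hb hS
  rw [QuotientGroup.eq_one_iff, Subgroup.mem_zpowers_iff]
  constructor
  · rintro ⟨k, rfl⟩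
    rcases Int.even_or_odd' k with ⟨j, rfl | rfl⟩
    · left
      rw [zpow_mul, zpow_two, ht, one_zpow]
    · right
      rw [zpow_add, zpow_mul, zpow_two, ht, one_zpow, one_mul, zpow_one]
  · rintro (rfl | rfl)
    · exact ⟨0, zpow_zero _⟩
    · exact ⟨1, zpow_one _⟩

/-- the class of a ramified ideal is nontrivial in `CG S` -/
private theorem gtw_ne (hb : B6 K a s) (hS : algebraMap (𝓞 K) K S = s) {d : ℕ}
    (hd : 2 * d ∣ a) (h1 : d ≠ 1) (h2 : 2 * d ≠ a) (hda : d ≠ a) :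
    (QuotientGroup.mk (cls (r6 S d)) : CG S) ≠ 1 := by
  intro h
  have hda' : d ∣ a := dvd_of_mul_left_dvd hd
  rcases (gtw_zp hb hS _).1 h with h3 | h3
  · exact r6_one hb hS hda' h1 hda h3
  · have h4 := gtw_mul hb hS hd
    rw [h3, (cls_two hb hS).1] at h4
    refine r6_one hb hS hd ?_ h2 h4
    omega

theorem exists_grp377 {r p q : ℕ} (hr : r.Prime) (hp : p.Prime) (hq : q.Prime) (hr8 : r % 8 = 3)
    (hp8 : p % 8 = 7) (hq8 : q % 8 = 7) (hpq : p ≠ q) (hb : B6 K (2 * r * p * q) s)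
    (hS : algebraMap (𝓞 K) K S = s) (hτ : τ S = -S) :
    ∃ l1 l2 : M1 K, (l1 : Ideal (𝓞 K)) = Ideal.span {1 + S} * r6 S p ∧
      (l2 : Ideal (𝓞 K)) = Ideal.span {1 + S} * r6 S q ∧
      (QuotientGroup.mk (cls (r6 S r)) : CG S) ≠ 1 ∧ clN S l1 ≠ 1 ∧ clN S l2 ≠ 1 ∧
      (QuotientGroup.mk (cls (r6 S r)) : CG S) ≠ clN S l1 ∧
      (QuotientGroup.mk (cls (r6 S r)) : CG S) ≠ clN S l2 ∧ clN S l1 ≠ clN S l2 ∧
      ∀ g : CG S, g * g = 1 ↔ g = 1 ∨ g = QuotientGroup.mk (cls (r6 S r)) ∨ g = clN S l1 ∨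
        g = clN S l2 := by
  have _ := hpq
  set a : ℕ := 2 * r * p * q with ha
  have hr3 : 2 < r := by
    have := hr.two_le
    omega
  have hp3 : 2 < p := by
    have := hp.two_le
    omega
  have hq3 : 2 < q := by
    have := hq.two_le
    omega
  have dr : r ∣ a := ⟨2 * p * q, by rw [ha]; ring⟩
  have dp : p ∣ a := ⟨2 * r * q, by rw [ha]; ring⟩
  have dq : q ∣ a := ⟨2 * r * p, by rw [ha]; ring⟩
  have d2r : 2 * r ∣ a := ⟨p * q, by rw [ha]; ring⟩
  have d2p : 2 * p ∣ a := ⟨r * q, by rw [ha]; ring⟩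
  have d2q : 2 * q ∣ a := ⟨r * p, by rw [ha]; ring⟩
  have d2rp : 2 * r * p ∣ a := ⟨q, by rw [ha]⟩
  have hmpq : p * q % 8 = 1 := by rw [Nat.mul_mod, hp8, hq8]
  have ha16 : (1 + a) % 8 = 7 := by
    have h1 : a = 2 * (r * (p * q)) := by rw [ha]; ring
    have h2 : r * (p * q) % 8 = 3 := by rw [Nat.mul_mod, hr8, hmpq]
    omega
  have hN1 : Ideal.absNorm (Ideal.span {1 + S} * r6 S p) % 8 = 1 := by
    rw [map_mul, norm_g hb hS, norm_r6 hb hS dp, Nat.mul_mod, ha16, hp8]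
  have hN2 : Ideal.absNorm (Ideal.span {1 + S} * r6 S q) % 8 = 1 := by
    rw [map_mul, norm_g hb hS, norm_r6 hb hS dq, Nat.mul_mod, ha16, hq8]
  have hg0 : (1 + S : 𝓞 K) ≠ 0 := by
    intro h0
    have h1 := norm_g hb hS
    rw [h0] at h1
    simp at h1
    omega
  have hg1 : Ideal.span {(1 + S : 𝓞 K)} ≠ (0 : Ideal (𝓞 K)) := by
    intro h2
    exact hg0 (Ideal.span_singleton_eq_bot.1 h2)
  -- the classes
  set R : CG S := QuotientGroup.mk (cls (r6 S r)) with hR
  set P : CG S := QuotientGroup.mk (cls (r6 S p)) with hP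
  set Q : CG S := QuotientGroup.mk (cls (r6 S q)) with hQ
  have hT : (QuotientGroup.mk (cls (r6 S 2)) : CG S) = 1 := (gtw_zp hb hS _).2 (Or.inr rfl)
  have hRR : R * R = 1 := by
    rw [hR, ← QuotientGroup.mk_mul, gtw_sq hb hS dr, QuotientGroup.mk_one]
  have hPP : P * P = 1 := by
    rw [hP, ← QuotientGroup.mk_mul, gtw_sq hb hS dp, QuotientGroup.mk_one]
  have hQQ : Q * Q = 1 := by
    rw [hQ, ← QuotientGroup.mk_mul, gtw_sq hb hS dq, QuotientGroup.mk_one]
  have hRPQ : R * P * Q = 1 := by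
    have h1 := gtw_all hb hS
    rw [ha, gtw_mul hb hS (d := 2 * r * p) (e := q) dvd_rfl,
      gtw_mul hb hS (d := 2 * r) (e := p) d2rp, gtw_mul hb hS (d := 2) (e := r) d2r] at h1
    have h2 := congrArg (fun g : ClassGroup (𝓞 K) => (QuotientGroup.mk g : CG S)) h1
    simp only [QuotientGroup.mk_mul, QuotientGroup.mk_one] at h2
    rw [hT, one_mul] at h2
    exact h2
  have hRQ : R * Q = P := by
    symm
    calc P = (R * R) * P * (Q * Q) := by rw [hRR, hQQ, one_mul, mul_one]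
      _ = (R * P * Q) * (R * Q) := by ac_rfl
      _ = R * Q := by rw [hRPQ, one_mul]
  have hRP : R * P = Q := by
    rw [← hRQ, ← mul_assoc, hRR, one_mul]
  have hPQ : P * Q = R := by
    rw [← hRQ, mul_assoc, hQQ, mul_one]
  have hl1 : clN S ⟨Ideal.span {1 + S} * r6 S p, hN1⟩ = P := by
    show (QuotientGroup.mk (cls (Ideal.span {1 + S} * r6 S p)) : CG S) = P
    rw [cls_mul hg1 (r6_ne hb hS dp), cls_span hg0, one_mul]
  have hl2 : clN S ⟨Ideal.span {1 + S} * r6 S q, hN2⟩ = Q := by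
    show (QuotientGroup.mk (cls (Ideal.span {1 + S} * r6 S q)) : CG S) = Q
    rw [cls_mul hg1 (r6_ne hb hS dq), cls_span hg0, one_mul]
  have hne : ∀ x y z : ℕ, 2 < x → 2 < y → 2 < z → a = 2 * x * y * z →
      (QuotientGroup.mk (cls (r6 S x)) : CG S) ≠ 1 := by
    intro x y z hx hy hz hxyz
    have hdx : 2 * x ∣ a := ⟨y * z, by rw [hxyz]; ring⟩
    refine gtw_ne hb hS hdx (by omega) ?_ ?_
    · intro h
      have h1 : 2 * x * 1 = 2 * x * (y * z) := by
        rw [mul_one]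
        exact h.trans (by rw [hxyz]; ring)
      have h2 := Nat.eq_of_mul_eq_mul_left (by omega) h1
      nlinarith
    · intro h
      have h1 : x * 1 = x * (2 * y * z) := by
        calc x * 1 = a := by rw [mul_one]; exact h
          _ = x * (2 * y * z) := by rw [hxyz]; ring
      have h2 := Nat.eq_of_mul_eq_mul_left (by omega) h1
      nlinarith
  have hR1 : R ≠ 1 := hne r p q hr3 hp3 hq3 ha
  have hP1 : P ≠ 1 := hne p r q hp3 hr3 hq3 (by rw [ha]; ring)
  have hQ1 : Q ≠ 1 := hne q r p hq3 hr3 hp3 (by rw [ha]; ring)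
  refine ⟨⟨Ideal.span {1 + S} * r6 S p, hN1⟩, ⟨Ideal.span {1 + S} * r6 S q, hN2⟩, rfl, rfl, hR1,
    ?_, ?_, ?_, ?_, ?_, ?_⟩
  · rw [hl1]; exact hP1
  · rw [hl2]; exact hQ1
  · rw [hl1]
    intro h
    apply hQ1
    rw [← hRP, ← h, hRR]
  · rw [hl2]
    intro h
    apply hP1
    rw [← hRQ, ← h, hRR]
  · rw [hl1, hl2]
    intro h
    apply hR1
    rw [← hPQ, ← h, hPP]
  · intro g
    rw [hl1, hl2]
    constructor
    · intro hg
      obtain ⟨C, rfl⟩ := QuotientGroup.mk_surjective g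
      rw [← QuotientGroup.mk_mul] at hg
      have hCC : C * C = 1 := by
        rcases (gtw_zp hb hS _).1 hg with h1 | h1
        · exact h1
        · exact absurd h1 (two_nsq hb hS hτ hr (Or.inl hr8) dr C)
      obtain ⟨d, hd, rfl⟩ := hil6 hb hS hτ hCC
      rw [ha] at hd
      obtain ⟨x, z, hx, hz, rfl⟩ := (Nat.dvd_mul).1 hd
      obtain ⟨x', y, hx', hy, rfl⟩ := (Nat.dvd_mul).1 hx
      obtain ⟨u, v, hu, hv, rfl⟩ := (Nat.dvd_mul).1 hx'
      have hu1 := (Nat.dvd_prime Nat.prime_two).1 hu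
      have hv1 := (Nat.dvd_prime hr).1 hv
      have hy1 := (Nat.dvd_prime hp).1 hy
      have hz1 := (Nat.dvd_prime hq).1 hz
      have hdd : u * v * y ∣ 2 * r * p * q := (dvd_mul_right _ _).trans hd
      have hddd : u * v ∣ 2 * r * p * q := (dvd_mul_right _ _).trans hdd
      rw [gtw_mul hb hS hd, gtw_mul hb hS hdd, gtw_mul hb hS hddd]
      simp only [QuotientGroup.mk_mul]
      have e1 : (QuotientGroup.mk (cls (r6 S 1)) : CG S) = 1 := by
        rw [gtw_one hb hS, QuotientGroup.mk_one]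
      have hu2 : (QuotientGroup.mk (cls (r6 S u)) : CG S) = 1 := by
        rcases hu1 with rfl | rfl
        · exact e1
        · exact hT
      have hv2 : (QuotientGroup.mk (cls (r6 S v)) : CG S) = 1 ∨
          (QuotientGroup.mk (cls (r6 S v)) : CG S) = R := by
        rcases hv1 with rfl | rfl
        · exact Or.inl e1
        · exact Or.inr rfl
      have hy2 : (QuotientGroup.mk (cls (r6 S y)) : CG S) = 1 ∨
          (QuotientGroup.mk (cls (r6 S y)) : CG S) = P := by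
        rcases hy1 with rfl | rfl
        · exact Or.inl e1
        · exact Or.inr rfl
      have hz2 : (QuotientGroup.mk (cls (r6 S z)) : CG S) = 1 ∨
          (QuotientGroup.mk (cls (r6 S z)) : CG S) = Q := by
        rcases hz1 with rfl | rfl
        · exact Or.inl e1
        · exact Or.inr rfl
      rw [hu2, one_mul]
      rcases hv2 with h1 | h1 <;> rcases hy2 with h2 | h2 <;> rcases hz2 with h3 | h3 <;>
        rw [h1, h2, h3]
      · left; rw [one_mul, one_mul]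
      · right; right; right; rw [one_mul, one_mul]
      · right; right; left; rw [one_mul, mul_one]
      · right; left; rw [one_mul, hPQ]
      · right; left; rw [mul_one, mul_one]
      · right; right; left; rw [mul_one, hRQ]
      · right; right; right; rw [mul_one, hRP]
      · left; rw [hRP, hQQ]
    · rintro (rfl | rfl | rfl | rfl)
      · exact mul_one 1
      · exact hRR
      · exact hPP
      · exact hQQ

end Pool.Agent.Work.MP_8efaaa_nt.Y6
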