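import Mathlib
import Pool.Agent.Work.MP_8efaaa_nt.V6.Defs
import Pool.Agent.Work.MP_8efaaa_nt.V6.PEx
import Pool.Agent.Work.MP_8efaaa_nt.V6.GPi
import Pool.Agent.Work.MP_8efaaa_nt.K6.ARg
import Pool.Agent.Work.MP_8efaaa_nt.K6.ARm
import Pool.Agent.Work.MP_8efaaa_nt.W14.PGa

/-!
# Y6/Lam (S-M): powers and points

lam_px: `lam * (lam * x) = (1+S) * ((1+S) * ((l) * x))` (`r6_sq`: `r6 S l * r6 S l = (l)`). By hT for `c = (l) x` (norm `l^2 N x = 1 (mod 4)`): `PP ((1+S) (l) x) = T - PP ((l) x)`; by hT for `c = (1+S) (l) x` (norm `(1+a) l^2 N x = 3 (mod 4)`, `norm_g`): `PP ((1+S)(1+S) (l) x) = T + em - PP ((1+S) (l) x) = em + PP ((l) x)`, and `PP ((l) x) = PP x` (`nat_px`, `l = 7 (mod 8)`).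
pow_px: `nat_px` (twice, `m % 8 = 1`): `PP (u^N) = PP (w^N)`. `kk_px` for `b = u ^ N`, `c = w ^ N` (same class, `map_pow`) with `x = 1`: `ε = 0`. With `x = (cj τ w)^N`: `PP ((u * cj τ w)^N) = PP ((w * cj τ w)^N) = PP ((N w)^N)`, and `w * cj τ w = (N w)` (`norm_cj6`), `nat_px` for the natural number `(N w)^N = 1 (mod 8)`: `= PP 1`.
no_pow: `kk_px` for `b = c ^ M`, `c = lam`: `ε`, `ε + ε = 0`. `PP (c^M * c^M) = PP (lam * c^M) + ε = PP (c^M * lam) + ε = PP (lam * lam) + ε + ε = PP (lam * (lam * 1)) = PP 1 + em` (lam_px), so `em = 0`: impossible (`em F = pt ..` is an affine point; or `qn_em`, `two_ep`: `em + ez = ep`, and `ep ≠ ez`).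
-/

set_option autoImplicit false

namespace Pool.Agent.Work.MP_8efaaa_nt.Y6

open NumberField Pool.Agent.Work.MP_8efaaa_nt.R Pool.Agent.Work.MP_8efaaa_nt.N5
  Pool.Agent.Work.MP_8efaaa_nt.K6 Pool.Agent.Work.MP_8efaaa_nt.W14 Pool.Agent.Work.MP_8efaaa_nt.V6
open scoped Classical nonZeroDivisors

variable {K F : Type*} [Field K] [NumberField K] [Field F] [NumberField F] [Algebra K F] {a : ℕ}
  {s : K} {S : 𝓞 K} {τ : 𝓞 K ≃+* 𝓞 K} {ζ : F} {w : ℕ → F} {z k v : Ideal (𝓞 K) → F}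
  {κ : F ≃ₐ[ℚ] F}

private theorem lam_one : OddI (1 : Ideal (𝓞 K)) := by
  unfold OddI
  rw [map_one]
  exact odd_one

private theorem lam_odd {c d : Ideal (𝓞 K)} (hc : OddI c) (hd : OddI d) : OddI (c * d) := by
  unfold OddI at *
  rw [map_mul]
  exact hc.mul hd

private theorem em_ne : W14.em F ≠ 0 := by
  intro h
  obtain ⟨t1, t2, t3, t4, t5, t6⟩ := two_ep (F := F)
  rw [h, add_zero] at t4
  unfold ep ez at t4
  rw [pt_inj] at t4
  exact one_ne_zero t4.1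

theorem lam_px (hb : B6 K a s) (hS : algebraMap (𝓞 K) K S = s) (ha : a % 16 = 6)
    (hU : UD6 K F a s S τ ζ w z k v κ) {T : (cQ F).Point}
    (hT : ∀ c, OddI c → PP z k v (Ideal.span {1 + S} * c) + PP z k v c =
        T + if Ideal.absNorm c % 4 = 1 then 0 else W14.em F) {l : ℕ} (hl8 : l % 8 = 7)
    (hla : l ∣ a) {lam : M1 K} (hlam : (lam : Ideal (𝓞 K)) = Ideal.span {1 + S} * r6 S l)
    {x : Ideal (𝓞 K)} (hx : Ideal.absNorm x % 4 = 1) :
    PP z k v ((lam : Ideal (𝓞 K)) * ((lam : Ideal (𝓞 K)) * x)) = PP z k v x + W14.em F := by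
  have e1 : (lam : Ideal (𝓞 K)) * ((lam : Ideal (𝓞 K)) * x) =
      Ideal.span {1 + S} * (Ideal.span {1 + S} * (Ideal.span {(l : 𝓞 K)} * x)) := by
    rw [hlam, ← r6_sq hb hS hla]
    ring
  have hxo : OddI x := by
    unfold OddI
    rw [Nat.odd_iff]
    omega
  have hnl : Ideal.absNorm (Ideal.span {(l : 𝓞 K)}) = l * l := by
    rw [← r6_sq hb hS hla, map_mul, norm_r6 hb hS hla]
  have hll : l * l % 8 = 1 := by
    rw [Nat.mul_mod, hl8]
  have hn1 : Ideal.absNorm (Ideal.span {(l : 𝓞 K)} * x) % 4 = 1 := by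
    rw [map_mul, hnl, Nat.mul_mod, hx]
    omega
  have ho1 : OddI (Ideal.span {(l : 𝓞 K)} * x) := by
    unfold OddI
    rw [Nat.odd_iff]
    omega
  have hn2 : Ideal.absNorm (Ideal.span {1 + S} * (Ideal.span {(l : 𝓞 K)} * x)) % 4 = 3 := by
    rw [map_mul, norm_g hb hS, Nat.mul_mod, hn1]
    omega
  have ho2 : OddI (Ideal.span {1 + S} * (Ideal.span {(l : 𝓞 K)} * x)) := by
    unfold OddI
    rw [Nat.odd_iff]
    omega
  have h1 := hT _ ho1
  rw [if_pos hn1, add_zero] at h1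
  have h2 := hT _ ho2
  rw [if_neg (by omega)] at h2
  have h3 := nat_px hb hS hU (n := l) (c := x) (Nat.odd_iff.2 (by omega)) hxo
  rw [if_pos (Or.inr hl8), add_zero] at h3
  rw [e1, ← h3]
  rw [← h1] at h2
  have h4 : PP z k v (Ideal.span {1 + S} * (Ideal.span {1 + S} * (Ideal.span {(l : 𝓞 K)} * x))) =
      (PP z k v (Ideal.span {1 + S} * (Ideal.span {1 + S} * (Ideal.span {(l : 𝓞 K)} * x))) +
        PP z k v (Ideal.span {1 + S} * (Ideal.span {(l : 𝓞 K)} * x))) -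
        PP z k v (Ideal.span {1 + S} * (Ideal.span {(l : 𝓞 K)} * x)) := by abel
  rw [h4, h2]
  abel

theorem pow_px (hb : B6 K a s) (hS : algebraMap (𝓞 K) K S = s) (hτ : τ S = -S)
    (ha : a % 16 = 6) (hU : UD6 K F a s S τ ζ w z k v κ) {u u' : M1 K} {N m m' : ℕ}
    (hm : m % 8 = 1) (hm' : m' % 8 = 1) (h : clN S u ^ N = clN S u' ^ N)
    (h1 : PP z k v (Ideal.span {(m : 𝓞 K)} * (u : Ideal (𝓞 K)) ^ N) =
      PP z k v (Ideal.span {(m' : 𝓞 K)} * (u' : Ideal (𝓞 K)) ^ N)) :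
    PP z k v (((u : Ideal (𝓞 K)) * cj τ u') ^ N) = PP z k v 1 := by
  have ho : ∀ y : M1 K, OddI ((y : Ideal (𝓞 K)) ^ N) := fun y => by
    have := M1.odd (y ^ N).2
    rwa [SubmonoidClass.coe_pow] at this
  have hn : ∀ (j : ℕ) (x : Ideal (𝓞 K)), j % 8 = 1 → OddI x →
      PP z k v (Ideal.span {(j : 𝓞 K)} * x) = PP z k v x := by
    intro j x hj hx
    rw [nat_px hb hS hU (n := j) (c := x) (Nat.odd_iff.2 (by omega)) hx, if_pos (Or.inl hj),
      add_zero]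
  rw [hn m _ hm (ho u), hn m' _ hm' (ho u')] at h1
  obtain ⟨ε, -, -, hε⟩ := kk_px hb hS hτ ha hU (b := u ^ N) (c := u' ^ N) (by
    rw [map_pow, map_pow, h])
  have h2 := hε 1 lam_one
  rw [mul_one, mul_one, SubmonoidClass.coe_pow, SubmonoidClass.coe_pow, h1] at h2
  have h3 : ε = 0 := by
    have h4 : PP z k v ((u' : Ideal (𝓞 K)) ^ N) + 0 = PP z k v ((u' : Ideal (𝓞 K)) ^ N) + ε := by
      rw [add_zero]
      exact h2
    exact (add_left_cancel h4).symm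
  obtain ⟨n1, n2, -⟩ := norm_cj6 hb hS hτ (u' : Ideal (𝓞 K))
  have hcj : OddI (cj τ (u' : Ideal (𝓞 K)) ^ N) := by
    unfold OddI
    rw [map_pow, n1]
    exact Odd.pow (M1.odd u'.2)
  have h4 := hε _ hcj
  rw [h3, add_zero, SubmonoidClass.coe_pow, SubmonoidClass.coe_pow, ← mul_pow, ← mul_pow, n2] at h4
  rw [h4, Ideal.span_singleton_pow]
  have h5 : (((Ideal.absNorm (u' : Ideal (𝓞 K)) : ℕ) : 𝓞 K)) ^ N =
      ((Ideal.absNorm (u' : Ideal (𝓞 K)) ^ N : ℕ) : 𝓞 K) := by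
    push_cast
    rfl
  have h6 := hn (Ideal.absNorm (u' : Ideal (𝓞 K)) ^ N) 1 (by
    rw [Nat.pow_mod, M1.nrm u'.2, one_pow]
    norm_num) lam_one
  rw [mul_one] at h6
  rw [h5, h6]

theorem no_pow (hb : B6 K a s) (hS : algebraMap (𝓞 K) K S = s) (hτ : τ S = -S)
    (ha : a % 16 = 6) (hU : UD6 K F a s S τ ζ w z k v κ) {T : (cQ F).Point}
    (hT : ∀ c, OddI c → PP z k v (Ideal.span {1 + S} * c) + PP z k v c =
        T + if Ideal.absNorm c % 4 = 1 then 0 else W14.em F) {l : ℕ} (hl8 : l % 8 = 7)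
    (hla : l ∣ a) {lam c : M1 K} (hlam : (lam : Ideal (𝓞 K)) = Ideal.span {1 + S} * r6 S l)
    {M : ℕ} (hc : clN S c ^ M = clN S lam)
    (h : PP z k v ((c : Ideal (𝓞 K)) ^ (2 * M)) = PP z k v 1) : False := by
  obtain ⟨ε, hεε, -, hε⟩ := kk_px hb hS hτ ha hU (b := c ^ M) (c := lam) (by rw [map_pow, hc])
  rw [SubmonoidClass.coe_pow] at hε
  have hcM : OddI ((c : Ideal (𝓞 K)) ^ M) := by
    have := M1.odd (c ^ M).2
    rwa [SubmonoidClass.coe_pow] at this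
  have h1 := hε _ hcM
  have h2 := hε _ (M1.odd lam.2)
  have h3 := lam_px hb hS ha hU hT hl8 hla hlam (x := 1) (by
    rw [map_one]
    norm_num)
  rw [mul_one] at h3
  have h4 : (c : Ideal (𝓞 K)) ^ M * (c : Ideal (𝓞 K)) ^ M = (c : Ideal (𝓞 K)) ^ (2 * M) := by
    rw [← pow_add, two_mul]
  rw [h4, h, mul_comm (lam : Ideal (𝓞 K)), h2, h3, add_assoc, hεε, add_zero] at h1
  have h5 : PP z k v (1 : Ideal (𝓞 K)) + 0 = PP z k v 1 + W14.em F := by
    rw [add_zero]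
    exact h1
  exact em_ne (add_left_cancel h5).symm

end Pool.Agent.Work.MP_8efaaa_nt.Y6
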