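import Mathlib
import Pool.Agent.Work.MP_8efaaa_nt.V6.Defs
import Pool.Agent.Work.MP_8efaaa_nt.V6.GNu
import Pool.Agent.Work.MP_8efaaa_nt.W14.CCh
import Pool.Agent.Work.MP_8efaaa_nt.K6.ARg
import Pool.Agent.Work.MP_8efaaa_nt.K6.ARm

/-!
# Y6/Nsq (S-M): symbols at a prime `l = 7 (mod 8)`

nsq7: `g = mk C`; `g * g = mk (cls b)` means `C * C = cls b` or `C * C = cls b * cls (r6 S 2)` up to `zpowers (cls (r6 S 2))` (its square is `1`, `cls_two`; see the private `mk_eq_cases` of V6/GGe.lean): `cls b = C * C` or `cls b = cls (r6 S 2) * (C * C)`; `chi_sq1` (V6/GNu) gives `jacobiSym (N b) l = 1` or `= jacobiSym 2 l = 1` (`l = 7 (mod 8)`: `jacobiSym.at_two`, `ZMod.χ₈_nat_eq_if_mod_eight`). `b ≠ 0` and `¬ l ∣ N b` because the symbol is not `0`.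
sym_w: `N w0 = (1 + a) N b` (`norm_g`), `(1 + a / l) = 1` (see `hjac` in V6/Main.lean), and `jacobiSym (N b) l = - jacobiSym l (N b)` (`jacobiSym.quadratic_reciprocity_three_mod_four`, `N b = 3`, `l = 3 (mod 4)`).
-/

set_option autoImplicit false

namespace Pool.Agent.Work.MP_8efaaa_nt.Y6

open NumberField Pool.Agent.Work.MP_8efaaa_nt.R Pool.Agent.Work.MP_8efaaa_nt.N5
  Pool.Agent.Work.MP_8efaaa_nt.K6 Pool.Agent.Work.MP_8efaaa_nt.W14 Pool.Agent.Work.MP_8efaaa_nt.V6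
open scoped Classical nonZeroDivisors

variable {K : Type*} [Field K] [NumberField K] {a : ℕ} {s : K} {S : 𝓞 K} {τ : 𝓞 K ≃+* 𝓞 K}

private theorem nsq_ne {p : ℕ} (hp : p.Prime) {n : ℕ} (h : jacobiSym n p ≠ 0) : ¬ p ∣ n := by
  intro h1
  apply h
  haveI : NeZero p := ⟨hp.ne_zero⟩
  rw [jacobiSym.eq_zero_iff_not_coprime]
  rw [Int.gcd_natCast_natCast, Nat.gcd_eq_right h1]
  exact hp.one_lt.ne'

private theorem nsq_two {q : ℕ} (hq : q.Prime) (hq8 : q % 8 = 7) : jacobiSym 2 q = 1 := by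
  haveI := Fact.mk hq
  rw [← jacobiSym.legendreSym.to_jacobiSym, legendreSym.at_two (by omega)]
  have h1 : ((q : ℕ) : ZMod 8) = (7 : ℕ) := by
    rw [ZMod.natCast_eq_natCast_iff']
    omega
  rw [h1]
  decide

private theorem nsq_cases (hb : B6 K a s) (hS : algebraMap (𝓞 K) K S = s)
    {B C : ClassGroup (𝓞 K)} (h : (QuotientGroup.mk C : CG S) = QuotientGroup.mk B) :
    B = C ∨ B = cls (r6 S 2) * C := by
  have ht : cls (r6 S 2) * cls (r6 S 2) = 1 := (cls_two hb hS).1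
  rw [QuotientGroup.eq] at h
  obtain ⟨k, hk⟩ := Subgroup.mem_zpowers_iff.1 h
  have hcb : B = C * cls (r6 S 2) ^ k := by
    rw [hk, mul_inv_cancel_left]
  rcases Int.even_or_odd' k with ⟨j, rfl | rfl⟩
  · left
    rw [hcb, zpow_mul, zpow_two, ht, one_zpow, mul_one]
  · right
    rw [hcb, zpow_add, zpow_mul, zpow_two, ht, one_zpow, one_mul, zpow_one, mul_comm]

theorem nsq7 (hb : B6 K a s) (hS : algebraMap (𝓞 K) K S = s) (hτ : τ S = -S) {l : ℕ}
    (hl : l.Prime) (hl8 : l % 8 = 7) (hla : l ∣ a) {b : Ideal (𝓞 K)}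
    (h : jacobiSym (Ideal.absNorm b) l = -1) (g : CG S) :
    g * g ≠ QuotientGroup.mk (cls b) := by
  intro hg
  obtain ⟨C, rfl⟩ := QuotientGroup.mk_surjective g
  have h1 : (QuotientGroup.mk (C * C) : CG S) = QuotientGroup.mk (cls b) := hg
  have hn : ¬ l ∣ Ideal.absNorm b := nsq_ne hl (by rw [h]; norm_num)
  have hb0 : b ≠ 0 := by
    rintro rfl
    apply hn
    rw [map_zero]
    exact dvd_zero l
  rcases nsq_cases hb hS h1 with h2 | h2
  · have h3 := (chi_sq1 hb hS hτ hl (by omega) hla hb0 hn).1 h2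
    rw [h] at h3
    norm_num at h3
  · have h3 := (chi_sq1 hb hS hτ hl (by omega) hla hb0 hn).2 h2
    rw [h, nsq_two hl hl8] at h3
    norm_num at h3

theorem sym_w (hb : B6 K a s) (hS : algebraMap (𝓞 K) K S = s) {l : ℕ} (hl4 : l % 4 = 3)
    (hla : l ∣ a) {b : Ideal (𝓞 K)} {w0 : M1 K} (hb8 : Ideal.absNorm b % 8 = 7)
    (hw : (w0 : Ideal (𝓞 K)) = Ideal.span {1 + S} * b) {e : ℤ}
    (h : jacobiSym l (Ideal.absNorm b) = e) :
    jacobiSym (Ideal.absNorm (w0 : Ideal (𝓞 K))) l = -e := by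
  have h1 : jacobiSym ((1 + a : ℕ) : ℤ) l = 1 := by
    rw [jacobiSym.mod_left]
    have h2 : ((1 + a : ℕ) : ℤ) % (l : ℤ) = 1 % (l : ℤ) := by
      obtain ⟨m, hm⟩ := hla
      rw [hm]
      push_cast
      rw [Int.add_mul_emod_self_left]
    rw [h2, ← jacobiSym.mod_left, jacobiSym.one_left]
  have h2 : jacobiSym (Ideal.absNorm b) l = -jacobiSym l (Ideal.absNorm b) :=
    jacobiSym.quadratic_reciprocity_three_mod_four (by omega) hl4
  rw [hw, map_mul, norm_g hb hS, Nat.cast_mul, jacobiSym.mul_left, h1, one_mul, h2, h]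

end Pool.Agent.Work.MP_8efaaa_nt.Y6
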