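import Mathlib
import Pool.Agent.Work.MP_8efaaa_nt.V6.Defs
import Pool.Agent.Work.MP_8efaaa_nt.V6.GSu
import Pool.Agent.Work.MP_8efaaa_nt.W14.CEq
import Pool.Agent.Work.MP_8efaaa_nt.K6.ARg

/-!
# Y6/Sec (M): a system of representatives made of pairs `c`, `w0 * cj τ c`

`N = card (CG S)`. PROOF. The map `f g = clN S w0 * g⁻¹` of `CG S` is an involution without fixed points (hw). Choose a half system `H` (as in `X5/HSys.lean`, `half_sysF`: `H = {g | e g < e (f g)}`, `e = Fintype.equivFin`; then `univ` is the disjoint union of `H` and `H.image f`, `N = 2 H.card`). Let `c g` be a representative of `g` (`clN_surj`), and `r g = c g` if `g ∈ H`, `r g = w0 * cj τ (c (f g))` otherwise (an element of `M1 K`: `norm_cj6`; its class is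
`clN w0 * (clN (c (f g)))⁻¹ = f (f g) = g`, `cls_cj`, see the proof of `in_pi` in V6/SIn.lean). Product: `∏ g, r g = ∏ g ∈ H, c g * (w0 * cj τ (c g))`, and `c * cj τ c = (N c)` (`norm_cj6`), `m = ∏ g ∈ H, N (c g)`. The classes: `∏ g, g = ∏ g ∈ H, g * f g = (clN w0) ^ H.card`. The sum: `∑ g, PP (r g) - H.card • T' = ∑ g ∈ H, (PP (w0 * cj τ (c g)) + PP (c g) - T') ∈ E`.
-/

set_option autoImplicit false

namespace Pool.Agent.Work.MP_8efaaa_nt.Y6

open NumberField Pool.Agent.Work.MP_8efaaa_nt.R Pool.Agent.Work.MP_8efaaa_nt.N5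
  Pool.Agent.Work.MP_8efaaa_nt.K6 Pool.Agent.Work.MP_8efaaa_nt.W14 Pool.Agent.Work.MP_8efaaa_nt.V6
open scoped Classical nonZeroDivisors

variable {K F : Type*} [Field K] [NumberField K] [Field F] [NumberField F] [Algebra K F] {a : ℕ}
  {s : K} {S : 𝓞 K} {τ : 𝓞 K ≃+* 𝓞 K} {ζ : F} {w : ℕ → F} {z k v : Ideal (𝓞 K) → F}
  {κ : F ≃ₐ[ℚ] F}

private theorem sec_half {J : Type*} [Fintype J] {f : J → J} (hf : ∀ j, f (f j) = j)
    (hfx : ∀ j, f j ≠ j) :
    ∃ H : Finset J, Disjoint H (H.image f) ∧ (Finset.univ : Finset J) = H ∪ H.image f ∧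
      ∀ j ∈ H, f j ∉ H := by
  let e : J ≃ Fin (Fintype.card J) := Fintype.equivFin J
  let H : Finset J := Finset.univ.filter fun j => e j < e (f j)
  have hmem : ∀ j, j ∈ H ↔ e j < e (f j) := by
    intro j
    simp [H]
  have hH : ∀ j ∈ H, f j ∉ H := by
    intro j hj hj'
    rw [hmem] at hj hj'
    rw [hf] at hj'
    exact lt_asymm hj hj'
  refine ⟨H, ?_, ?_, hH⟩
  · rw [Finset.disjoint_left]
    intro j hj hj'
    obtain ⟨k, hk, rfl⟩ := Finset.mem_image.1 hj'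
    exact hH k hk hj
  · symm
    rw [Finset.eq_univ_iff_forall]
    intro j
    rw [Finset.mem_union, Finset.mem_image]
    have h1 : e j ≠ e (f j) := fun h => hfx j (e.injective h).symm
    rcases lt_or_gt_of_ne h1 with h2 | h2
    · exact Or.inl ((hmem j).2 h2)
    · refine Or.inr ⟨f j, (hmem _).2 ?_, hf j⟩
      rw [hf]
      exact h2

private theorem sec_card {J : Type*} [Fintype J] {f : J → J} {H : Finset J}
    (hf : ∀ j, f (f j) = j) (hd : Disjoint H (H.image f))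
    (hu : (Finset.univ : Finset J) = H ∪ H.image f) : Fintype.card J = 2 * H.card := by
  have hinj : Function.Injective f := Function.Involutive.injective hf
  rw [← Finset.card_univ, hu, Finset.card_union_of_disjoint hd,
    Finset.card_image_of_injective _ hinj]
  ring

private theorem sec_prod {J M : Type*} [Fintype J] [CommMonoid M] {f : J → J} {H : Finset J}
    (hf : ∀ j, f (f j) = j) (hd : Disjoint H (H.image f))
    (hu : (Finset.univ : Finset J) = H ∪ H.image f) (g : J → M) :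
    ∏ j, g j = ∏ j ∈ H, (g j * g (f j)) := by
  have hinj : Function.Injective f := Function.Involutive.injective hf
  rw [hu, Finset.prod_union hd, Finset.prod_image (fun x _ y _ h => hinj h),
    Finset.prod_mul_distrib]

private theorem sec_sum {J M : Type*} [Fintype J] [AddCommMonoid M] {f : J → J} {H : Finset J}
    (hf : ∀ j, f (f j) = j) (hd : Disjoint H (H.image f))
    (hu : (Finset.univ : Finset J) = H ∪ H.image f) (g : J → M) :
    ∑ j, g j = ∑ j ∈ H, (g j + g (f j)) := by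
  have hinj : Function.Injective f := Function.Involutive.injective hf
  rw [hu, Finset.sum_union hd, Finset.sum_image (fun x _ y _ h => hinj h),
    Finset.sum_add_distrib]

theorem exists_sec (hb : B6 K a s) (hS : algebraMap (𝓞 K) K S = s) (hτ : τ S = -S)
    (ha : a % 16 = 6) {w0 : M1 K} (hw : ∀ g : CG S, g * g ≠ clN S w0) [Fintype (CG S)] :
    (clN S w0) ^ (Fintype.card (CG S) / 2) = ∏ g : CG S, g ∧
    ∃ (r : CG S → M1 K) (m : ℕ), (∀ g, clN S (r g) = g) ∧ m % 8 = 1 ∧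
      ((∏ g, r g : M1 K) : Ideal (𝓞 K)) = Ideal.span {(m : 𝓞 K)} *
        (w0 : Ideal (𝓞 K)) ^ (Fintype.card (CG S) / 2) ∧
      ∀ (z k v : Ideal (𝓞 K) → F) (T' : (cQ F).Point) (E : AddSubgroup (cQ F).Point),
        (∀ c ∈ M1 K, PP z k v ((w0 : Ideal (𝓞 K)) * cj τ c) + PP z k v c - T' ∈ E) →
        ∑ g, PP z k v (r g : Ideal (𝓞 K)) - (Fintype.card (CG S) / 2) • T' ∈ E := by
  set ω : CG S := clN S w0 with hω
  have hf : ∀ g : CG S, ω * (ω * g⁻¹)⁻¹ = g := by
    intro g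
    rw [mul_inv_rev, inv_inv, mul_comm g ω⁻¹, mul_inv_cancel_left]
  have hfx : ∀ g : CG S, ω * g⁻¹ ≠ g := by
    intro g h
    apply hw g
    calc g * g = ω * g⁻¹ * g := by rw [h]
      _ = ω := inv_mul_cancel_right ω g
  obtain ⟨H, hd, hu, hH⟩ := sec_half (f := fun g : CG S => ω * g⁻¹) hf hfx
  have hcard : Fintype.card (CG S) = 2 * H.card := sec_card hf hd hu
  have hN2 : Fintype.card (CG S) / 2 = H.card := by omega
  rw [hN2]
  have hcjm : ∀ c : Ideal (𝓞 K), c ∈ M1 K → cj τ c ∈ M1 K := by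
    intro c hc
    show Ideal.absNorm (cj τ c) % 8 = 1
    rw [(norm_cj6 hb hS hτ c).1]
    exact M1.nrm hc
  have hinv : ∀ c : M1 K, clN S ⟨cj τ (c : Ideal (𝓞 K)), hcjm _ c.2⟩ = (clN S c)⁻¹ := by
    intro c
    show QuotientGroup.mk (cls (cj τ (c : Ideal (𝓞 K)))) =
      (QuotientGroup.mk (cls (c : Ideal (𝓞 K))))⁻¹
    rw [(cls_cj hb hS hτ (M1.ne c.2)).2]
    rfl
  constructor
  · rw [sec_prod hf hd hu (fun g : CG S => g), ← Finset.prod_const]
    refine Finset.prod_congr rfl fun g _ => ?_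
    rw [mul_comm ω g⁻¹, mul_inv_cancel_left]
  obtain ⟨c, hc⟩ := (clN_surj hb hS ha).hasRightInverse
  set r : CG S → M1 K := fun g => if g ∈ H then c g else
    w0 * ⟨cj τ (c (ω * g⁻¹) : Ideal (𝓞 K)), hcjm _ (c (ω * g⁻¹)).2⟩ with hr
  have hr1 : ∀ g ∈ H, r g = c g := by
    intro g hg
    rw [hr]
    exact if_pos hg
  have hr2 : ∀ g ∈ H, r (ω * g⁻¹) = w0 * ⟨cj τ (c g : Ideal (𝓞 K)), hcjm _ (c g).2⟩ := by
    intro g hg
    have h1 : r (ω * g⁻¹) = w0 * ⟨cj τ (c (ω * (ω * g⁻¹)⁻¹) : Ideal (𝓞 K)),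
        hcjm _ (c (ω * (ω * g⁻¹)⁻¹)).2⟩ := by
      rw [hr]
      exact if_neg (hH g hg)
    have h2 : ∀ x y : CG S, x = y → (w0 * ⟨cj τ (c x : Ideal (𝓞 K)), hcjm _ (c x).2⟩ : M1 K) =
        w0 * ⟨cj τ (c y : Ideal (𝓞 K)), hcjm _ (c y).2⟩ := by
      rintro x y rfl
      rfl
    rw [h1]
    exact h2 _ _ (hf g)
  have hcl : ∀ g, clN S (r g) = g := by
    intro g
    by_cases hg : g ∈ H
    · rw [hr1 g hg]
      exact hc g
    · have h1 : r g = w0 * ⟨cj τ (c (ω * g⁻¹) : Ideal (𝓞 K)), hcjm _ (c (ω * g⁻¹)).2⟩ := by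
        rw [hr]
        exact if_neg hg
      rw [h1, map_mul, hinv, hc (ω * g⁻¹), ← hω]
      exact hf g
  refine ⟨r, ∏ g ∈ H, Ideal.absNorm (c g : Ideal (𝓞 K)), hcl, ?_, ?_, ?_⟩
  · refine Finset.prod_induction _ (fun n => n % 8 = 1) ?_ (by norm_num) ?_
    · intro x y hx hy
      rw [Nat.mul_mod, hx, hy]
    · intro g _
      exact M1.nrm (c g).2
  · rw [sec_prod hf hd hu r]
    have h1 : (∏ g ∈ H, (r g * r (ω * g⁻¹)) : M1 K) = ∏ g ∈ H,
        (c g * (w0 * ⟨cj τ (c g : Ideal (𝓞 K)), hcjm _ (c g).2⟩)) := by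
      refine Finset.prod_congr rfl fun g hg => ?_
      rw [hr1 g hg, hr2 g hg]
    have h2 : ∀ g ∈ H, ((c g * (w0 * ⟨cj τ (c g : Ideal (𝓞 K)), hcjm _ (c g).2⟩) : M1 K) :
        Ideal (𝓞 K)) = Ideal.span {((Ideal.absNorm (c g : Ideal (𝓞 K)) : ℕ) : 𝓞 K)} *
          (w0 : Ideal (𝓞 K)) := by
      intro g _
      show (c g : Ideal (𝓞 K)) * ((w0 : Ideal (𝓞 K)) * cj τ (c g : Ideal (𝓞 K))) = _
      rw [← (norm_cj6 hb hS hτ (c g : Ideal (𝓞 K))).2.1]
      ring
    rw [h1, SubmonoidClass.coe_finsetProd, Finset.prod_congr rfl h2, Finset.prod_mul_distrib,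
      Finset.prod_const, Ideal.prod_span_singleton, Nat.cast_prod]
  · intro z k v T' E hE
    rw [sec_sum hf hd hu (fun g => PP z k v (r g : Ideal (𝓞 K))), ← Finset.sum_const,
      ← Finset.sum_sub_distrib]
    refine E.sum_mem fun g hg => ?_
    rw [hr1 g hg, hr2 g hg]
    have h1 := hE (c g : Ideal (𝓞 K)) (c g).2
    rw [add_comm (PP z k v (c g : Ideal (𝓞 K)))]
    exact h1

end Pool.Agent.Work.MP_8efaaa_nt.Y6
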