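import Mathlib
import Pool.Agent.Work.MP_8efaaa_nt.K6.CDt
import Pool.Agent.Work.MP_8efaaa_nt.K6.DIn
import Pool.Agent.Work.MP_8efaaa_nt.V6.Defs
import Pool.Agent.Work.MP_8efaaa_nt.V6.PEx
import Pool.Agent.Work.MP_8efaaa_nt.V6.QFa
import Pool.Agent.Work.MP_8efaaa_nt.V6.GSu
import Pool.Agent.Work.MP_8efaaa_nt.V6.GPi
import Pool.Agent.Work.MP_8efaaa_nt.V6.STo
import Pool.Agent.Work.MP_8efaaa_nt.V6.SIn
import Pool.Agent.Work.MP_8efaaa_nt.W14.DEx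
import Pool.Agent.Work.MP_8efaaa_nt.W14.LPt
import Pool.Agent.Work.MP_8efaaa_nt.Y6.Four
import Pool.Agent.Work.MP_8efaaa_nt.Y6.Sec
import Pool.Agent.Work.MP_8efaaa_nt.Y6.Prd
import Pool.Agent.Work.MP_8efaaa_nt.Y6.Tor
import Pool.Agent.Work.MP_8efaaa_nt.Y6.Nsq
import Pool.Agent.Work.MP_8efaaa_nt.Y6.Lam
import Pool.Agent.Work.MP_8efaaa_nt.Y6.GTw

/-!
# Y6/Main (helper67): the theorem

`2 r p q` is a congruent number for primes `r = 3`, `p = q = 7 (mod 8)` if `r` is not a square modulo `p` or not a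
square modulo `q`.
-/

set_option autoImplicit false

namespace Pool.Agent.Work.MP_8efaaa_nt.Y6

open NumberField Pool.Agent.Work.MP_8efaaa_nt.R Pool.Agent.Work.MP_8efaaa_nt.N5
  Pool.Agent.Work.MP_8efaaa_nt.K6 Pool.Agent.Work.MP_8efaaa_nt.W14 Pool.Agent.Work.MP_8efaaa_nt.V6
open scoped Classical nonZeroDivisors

section

variable {K F : Type*} [Field K] [NumberField K] [Field F] [NumberField F] [Algebra K F] {a : ℕ}
  {s : K} {S : 𝓞 K} {τ : 𝓞 K ≃+* 𝓞 K} {ζ : F} {w : ℕ → F} {z k v : Ideal (𝓞 K) → F}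
  {κ : F ≃ₐ[ℚ] F}

/-- the data of a prime `l` -/
theorem dat6 [IsGalois ℚ F] [FiniteDimensional K F] [IsGalois K F] (hb : B6 K a s)
    (hS : algebraMap (𝓞 K) K S = s) (hτ : τ S = -S) (ha : a % 16 = 6)
    (hU : UD6 K F a s S τ ζ w z k v κ) (hnc : ¬ IsCongruent a) {T : (cQ F).Point}
    (hTT : T + T = ez F)
    (hT : ∀ c, OddI c → PP z k v (Ideal.span {1 + S} * c) + PP z k v c =
        T + if Ideal.absNorm c % 4 = 1 then 0 else W14.em F) [Fintype (CG S)]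
    {l : ℕ} (hl : l.Prime) (hl2 : l ≠ 2) (hla : l ∣ a) :
    ∃ w0 : M1 K, (∀ d, d ∣ a → d % 4 = 3 → ¬ l ∣ d →
        jacobiSym (Ideal.absNorm (w0 : Ideal (𝓞 K))) d = -1) ∧
      (∀ d, d ∣ a → d % 4 = 3 → l ∣ d → jacobiSym (Ideal.absNorm (w0 : Ideal (𝓞 K))) d = 1) ∧
      ((∀ g : CG S, g * g ≠ clN S w0) →
        (clN S w0) ^ (Fintype.card (CG S) / 2) = ∏ g : CG S, g ∧
        ∃ (r : CG S → M1 K) (m : ℕ), (∀ g, clN S (r g) = g) ∧ m % 8 = 1 ∧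
          ((∏ g, r g : M1 K) : Ideal (𝓞 K)) = Ideal.span {(m : 𝓞 K)} *
            (w0 : Ideal (𝓞 K)) ^ (Fintype.card (CG S) / 2) ∧
          ∑ g, PP z k v (r g : Ideal (𝓞 K)) = (Fintype.card (CG S) / 2) • (T + W14.em F)) := by
  obtain ⟨L, hL', hL⟩ := exists_prime6 (F := F) hl
  obtain ⟨Γ, _, V, hV⟩ := exists_vl hL'
  have h2 := (vl_odd hV hl hl2 hL).2.1
  obtain ⟨b, w0, hb8, -, hw0, h1, h2', hP⟩ := in_pp hb hS hτ ha hU hT hV hl hl2 hla hL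
  refine ⟨w0, fun d hd hd4 hld => ?_, fun d hd hd4 hld => ?_, fun hsq => ?_⟩
  · exact sym_w hb hS hd4 hd hb8 hw0 (h1 d hd hld)
  · have h3 := sym_w hb hS hd4 hd hb8 hw0 (h2' d hd hld)
    rw [h3]
    norm_num
  · obtain ⟨h3, r, m, h4, h5, h6, h7⟩ := exists_sec (F := F) hb hS hτ ha hsq
    exact ⟨h3, r, m, h4, h5, h6, sum_eq hb hS hτ ha hU hnc hTT h2 h4 (h7 z k v _ _ hP)⟩

/-- the pair -/
theorem pair6 (hb : B6 K a s) (hS : algebraMap (𝓞 K) K S = s) (hτ : τ S = -S)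
    (ha : a % 16 = 6) (hU : UD6 K F a s S τ ζ w z k v κ) [Fintype (CG S)] {u u' : M1 K} {N : ℕ}
    {T' : (cQ F).Point}
    (h : (clN S u) ^ N = ∏ g : CG S, g ∧
        ∃ (r : CG S → M1 K) (m : ℕ), (∀ g, clN S (r g) = g) ∧ m % 8 = 1 ∧
          ((∏ g, r g : M1 K) : Ideal (𝓞 K)) = Ideal.span {(m : 𝓞 K)} * (u : Ideal (𝓞 K)) ^ N ∧
          ∑ g, PP z k v (r g : Ideal (𝓞 K)) = T')
    (h' : (clN S u') ^ N = ∏ g : CG S, g ∧
        ∃ (r : CG S → M1 K) (m : ℕ), (∀ g, clN S (r g) = g) ∧ m % 8 = 1 ∧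
          ((∏ g, r g : M1 K) : Ideal (𝓞 K)) = Ideal.span {(m : 𝓞 K)} * (u' : Ideal (𝓞 K)) ^ N ∧
          ∑ g, PP z k v (r g : Ideal (𝓞 K)) = T') :
    PP z k v (((u : Ideal (𝓞 K)) * cj τ u') ^ N) = PP z k v 1 := by
  obtain ⟨h1, r, m, h2, h3, h4, h5⟩ := h
  obtain ⟨h1', r', m', h2', h3', h4', h5'⟩ := h'
  have h6 := sum_prod hb hS hτ ha hU h2 h2'
  rw [h5, h5', sub_self, h4, h4'] at h6
  exact pow_px hb hS hτ ha hU h3 h3' (h1.trans h1'.symm) (sub_eq_zero.1 h6.symm)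

/-- the final contradiction -/
theorem fin6 (hb : B6 K a s) (hS : algebraMap (𝓞 K) K S = s) (hτ : τ S = -S)
    (ha : a % 16 = 6) (hU : UD6 K F a s S τ ζ w z k v κ) {T : (cQ F).Point}
    (hT : ∀ c, OddI c → PP z k v (Ideal.span {1 + S} * c) + PP z k v c =
        T + if Ideal.absNorm c % 4 = 1 then 0 else W14.em F) [Fintype (CG S)]
    {p q r : ℕ} (hr2 : Nat.Coprime r p) (hr2' : Nat.Coprime r q) (hra : r ∣ a)
    (hp : p.Prime) (hp8 : p % 8 = 7) (hpa : p ∣ a) (hq : q.Prime) (hq8 : q % 8 = 7) (hqa : q ∣ a)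
    {l1 l2 : M1 K} (e1 : (l1 : Ideal (𝓞 K)) = Ideal.span {1 + S} * r6 S p)
    (e2 : (l2 : Ideal (𝓞 K)) = Ideal.span {1 + S} * r6 S q)
    (g1 : (QuotientGroup.mk (cls (r6 S r)) : CG S) ≠ 1) (g2 : clN S l1 ≠ 1) (g3 : clN S l2 ≠ 1)
    (g4 : (QuotientGroup.mk (cls (r6 S r)) : CG S) ≠ clN S l1)
    (g5 : (QuotientGroup.mk (cls (r6 S r)) : CG S) ≠ clN S l2) (g6 : clN S l1 ≠ clN S l2)
    (hG : ∀ g : CG S, g * g = 1 ↔ g = 1 ∨ g = QuotientGroup.mk (cls (r6 S r)) ∨ g = clN S l1 ∨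
        g = clN S l2)
    (hρ : jacobiSym r p = -1 ∨ jacobiSym r q = -1)
    {u u' : M1 K}
    (hγ : jacobiSym (Ideal.absNorm ((u : Ideal (𝓞 K)) * cj τ u')) p = -1 ∨
      jacobiSym (Ideal.absNorm ((u : Ideal (𝓞 K)) * cj τ u')) q = -1)
    (hργ : jacobiSym (r * Ideal.absNorm ((u : Ideal (𝓞 K)) * cj τ u')) p = -1 ∨
      jacobiSym (r * Ideal.absNorm ((u : Ideal (𝓞 K)) * cj τ u')) q = -1)
    (h : PP z k v (((u : Ideal (𝓞 K)) * cj τ u') ^ (Fintype.card (CG S) / 2)) = PP z k v 1) :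
    False := by
  have hcM : (u : Ideal (𝓞 K)) * cj τ u' ∈ M1 K := by
    show Ideal.absNorm ((u : Ideal (𝓞 K)) * cj τ u') % 8 = 1
    rw [map_mul, (norm_cj6 hb hS hτ (u' : Ideal (𝓞 K))).1, Nat.mul_mod, M1.nrm u.2, M1.nrm u'.2]
  set c : M1 K := ⟨(u : Ideal (𝓞 K)) * cj τ u', hcM⟩ with hc
  have hcc : (c : Ideal (𝓞 K)) = (u : Ideal (𝓞 K)) * cj τ u' := rfl
  have hr0 := r6_ne hb hS hra
  have hc0 := M1.ne c.2
  have n1 : ∀ x : CG S, x * x ≠ QuotientGroup.mk (cls (r6 S r)) := by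
    intro x
    rcases hρ with h1 | h1
    · exact nsq7 hb hS hτ hp hp8 hpa (by rw [norm_r6 hb hS hra]; exact h1) x
    · exact nsq7 hb hS hτ hq hq8 hqa (by rw [norm_r6 hb hS hra]; exact h1) x
  have n2 : ∀ x : CG S, x * x ≠ clN S c := by
    intro x
    rcases hγ with h1 | h1
    · exact nsq7 hb hS hτ hp hp8 hpa (b := (c : Ideal (𝓞 K))) h1 x
    · exact nsq7 hb hS hτ hq hq8 hqa (b := (c : Ideal (𝓞 K))) h1 x
  have n3 : ∀ x : CG S, x * x ≠ QuotientGroup.mk (cls (r6 S r)) * clN S c := by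
    intro x
    have h2 : (QuotientGroup.mk (cls (r6 S r)) : CG S) * clN S c =
        QuotientGroup.mk (cls (r6 S r * (c : Ideal (𝓞 K)))) := by
      rw [cls_mul hr0 hc0]
      rfl
    rw [h2]
    rcases hργ with h1 | h1
    · exact nsq7 hb hS hτ hp hp8 hpa (by
        rw [map_mul, norm_r6 hb hS hra, Nat.cast_mul]; exact h1) x
    · exact nsq7 hb hS hτ hq hq8 hqa (by
        rw [map_mul, norm_r6 hb hS hra, Nat.cast_mul]; exact h1) x
  obtain ⟨h4, h5⟩ := four_pow hG g1 g2 g3 g4 g5 g6 n1 n2 n3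
  rw [Nat.card_eq_fintype_card] at h4 h5
  have h6 : Fintype.card (CG S) / 2 = 2 * (Fintype.card (CG S) / 4) := by omega
  rw [h6, ← hcc] at h
  rcases h5 with h5 | h5
  · exact no_pow hb hS hτ ha hU hT hp8 hpa e1 (by rw [h5]) h
  · exact no_pow hb hS hτ ha hU hT hq8 hqa e2 (by rw [h5]) h

end

private theorem sqf {r p q : ℕ} (hr : r.Prime) (hp : p.Prime) (hq : q.Prime) (hr8 : r % 8 = 3)
    (hp8 : p % 8 = 7) (hq8 : q % 8 = 7) (hpq : p ≠ q) : Squarefree (2 * r * p * q) := by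
  have c1 : Nat.Coprime 2 r := (Nat.coprime_primes Nat.prime_two hr).2 (by omega)
  have c2 : Nat.Coprime 2 p := (Nat.coprime_primes Nat.prime_two hp).2 (by omega)
  have c3 : Nat.Coprime 2 q := (Nat.coprime_primes Nat.prime_two hq).2 (by omega)
  have c4 : Nat.Coprime r p := (Nat.coprime_primes hr hp).2 (by omega)
  have c5 : Nat.Coprime r q := (Nat.coprime_primes hr hq).2 (by omega)
  have c6 : Nat.Coprime p q := (Nat.coprime_primes hp hq).2 hpq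
  rw [Nat.squarefree_mul (Nat.Coprime.mul_left (Nat.Coprime.mul_left c3 c5) c6),
    Nat.squarefree_mul (Nat.Coprime.mul_left c2 c4), Nat.squarefree_mul c1]
  exact ⟨⟨⟨Nat.prime_two.squarefree, hr.squarefree⟩, hp.squarefree⟩, hq.squarefree⟩

private theorem mod16 {r p q : ℕ} (hr8 : r % 8 = 3) (hp8 : p % 8 = 7) (hq8 : q % 8 = 7) :
    (2 * r * p * q) % 16 = 6 := by
  have h1 : (r * p * q) % 8 = 3 := by
    rw [Nat.mul_mod (r * p), Nat.mul_mod r, hr8, hp8, hq8]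
  have h2 : 2 * r * p * q = 2 * (r * p * q) := by ring
  omega

/-- `2 r p q` is a congruent number for primes `r = 3`, `p = q = 7 (mod 8)`, `p ≠ q`, if `r` is not a square modulo
`p` or not a square modulo `q`. -/
theorem main_377 {r p q : ℕ} (hr : r.Prime) (hp : p.Prime) (hq : q.Prime) (hr8 : r % 8 = 3)
    (hp8 : p % 8 = 7) (hq8 : q % 8 = 7) (hpq : p ≠ q)
    (hρ : jacobiSym r p = -1 ∨ jacobiSym r q = -1) : IsCongruent (2 * r * p * q) := by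
  by_contra hnc
  have hsf := sqf hr hp hq hr8 hp8 hq8 hpq
  have ha := mod16 hr8 hp8 hq8
  have hr2 : r ≠ 2 := by omega
  have hp2 : p ≠ 2 := by omega
  have hq2 : q ≠ 2 := by omega
  have hra : r ∣ 2 * r * p * q := ⟨2 * p * q, by ring⟩
  have hpa : p ∣ 2 * r * p * q := ⟨2 * r * q, by ring⟩
  have hqa : q ∣ 2 * r * p * q := dvd_mul_left _ _
  have hrp : ¬ r ∣ p := fun h => by
    have := (Nat.prime_dvd_prime_iff_eq hr hp).1 h
    omega
  have hrq : ¬ r ∣ q := fun h => by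
    have := (Nat.prime_dvd_prime_iff_eq hr hq).1 h
    omega
  have hpq' : ¬ p ∣ q := fun h => hpq ((Nat.prime_dvd_prime_iff_eq hp hq).1 h)
  have hqp' : ¬ q ∣ p := fun h => hpq ((Nat.prime_dvd_prime_iff_eq hq hp).1 h).symm
  have crp : Nat.Coprime r p := (Nat.coprime_primes hr hp).2 (by omega)
  have crq : Nat.Coprime r q := (Nat.coprime_primes hr hq).2 (by omega)
  have hp4 : p % 4 = 3 := by omega
  have hq4 : q % 4 = 3 := by omega
  obtain ⟨K, _, _, s, hb⟩ := exists_base6 hsf (a := 2 * r * p * q) (by omega)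
  obtain ⟨S, hS, -, -⟩ := exists_S6 hb
  obtain ⟨τ, hτ⟩ := exists_tau6 hb hS
  obtain ⟨F, _, _, _, _, _, _, ζ, w, z, k, v, κ, hU⟩ := exists_ud6 hb hS hτ
  obtain ⟨T, hTT, hT⟩ := tq_px hb hS hU
  have : Fintype (CG S) := Fintype.ofFinite _
  obtain ⟨l1, l2, e1, e2, g1, g2, g3, g4, g5, g6, hG⟩ :=
    exists_grp377 hr hp hq hr8 hp8 hq8 hpq hb hS hτ
  obtain ⟨ur, r1, r2, r3⟩ := dat6 hb hS hτ ha hU hnc hTT hT hr hr2 hra
  obtain ⟨up, p1, p2, p3⟩ := dat6 hb hS hτ ha hU hnc hTT hT hp hp2 hpa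
  obtain ⟨uq, q1, q2, q3⟩ := dat6 hb hS hτ ha hU hnc hTT hT hq hq2 hqa
  have srp := r1 p hpa hp4 hrp
  have srq := r1 q hqa hq4 hrq
  have spp := p2 p hpa hp4 dvd_rfl
  have spq := p1 q hqa hq4 hpq'
  have sqp := q1 p hpa hp4 hqp'
  have sqq := q2 q hqa hq4 dvd_rfl
  have hr' := r3 (fun g => nsq7 hb hS hτ hp hp8 hpa srp g)
  have hp' := p3 (fun g => nsq7 hb hS hτ hq hq8 hqa spq g)
  have hq' := q3 (fun g => nsq7 hb hS hτ hp hp8 hpa sqp g)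
  have hN : ∀ u u' : M1 K, Ideal.absNorm ((u : Ideal (𝓞 K)) * cj τ u') =
      Ideal.absNorm (u : Ideal (𝓞 K)) * Ideal.absNorm (u' : Ideal (𝓞 K)) := by
    intro u u'
    rw [map_mul, (norm_cj6 hb hS hτ (u' : Ideal (𝓞 K))).1]
  have hpm : jacobiSym r p = 1 ∨ jacobiSym r p = -1 :=
    jacobiSym.eq_one_or_neg_one (by
      rw [Int.gcd_natCast_natCast]
      exact crp)
  have hqm : jacobiSym r q = 1 ∨ jacobiSym r q = -1 :=
    jacobiSym.eq_one_or_neg_one (by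
      rw [Int.gcd_natCast_natCast]
      exact crq)
  by_cases hboth : jacobiSym r p = -1 ∧ jacobiSym r q = -1
  · refine fin6 hb hS hτ ha hU hT crp crq hra hp hp8 hpa hq hq8 hqa e1 e2 g1 g2 g3 g4 g5 g6 hG hρ
      (u := ur) (u' := up) (Or.inl ?_) (Or.inr ?_) (pair6 hb hS hτ ha hU hr' hp')
    · rw [hN, Nat.cast_mul, jacobiSym.mul_left, srp, spp]
      norm_num
    · rw [hN, Nat.cast_mul, jacobiSym.mul_left, jacobiSym.mul_left, srq, spq, hboth.2]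
      norm_num
  · refine fin6 hb hS hτ ha hU hT crp crq hra hp hp8 hpa hq hq8 hqa e1 e2 g1 g2 g3 g4 g5 g6 hG hρ
      (u := up) (u' := uq) (Or.inl ?_) ?_ (pair6 hb hS hτ ha hU hp' hq')
    · rw [hN, Nat.cast_mul, jacobiSym.mul_left, spp, sqp]
      norm_num
    · rcases hpm with h1 | h1
      · left
        rw [hN, Nat.cast_mul, jacobiSym.mul_left, jacobiSym.mul_left, spp, sqp, h1]
        norm_num
      · rcases hqm with h2 | h2
        · right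
          rw [hN, Nat.cast_mul, jacobiSym.mul_left, jacobiSym.mul_left, spq, sqq, h2]
          norm_num
        · exact absurd ⟨h1, h2⟩ hboth

end Pool.Agent.Work.MP_8efaaa_nt.Y6
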